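import Pool.Agent.H44T.SL.Tow

/-!
# The bound for the signatures on the products with powers
-/

open CategoryTheory AlgebraicGeometry Finset

universe u v

namespace Pool.Agent.H44T.SL

open Pool.Agent.H914 Pool.Agent.H914.VarClass Pool.Agent.H914.VarClass.Obj
  Pool.Agent.H914.WeilCohomology Pool.Agent.H281R3.HT Pool.Agent.W552 Pool.Agent.W539.Ker

variable {k : Type u} [Field k] {𝒱 : VarClass k} {ops : CycleOps 𝒱}
  {W : WeilCohomology.{u, v} ops} {X Y Z : 𝒱.Obj} {D : X.Cycles} {f : Module.End W.K (W.H X)}

/-- Two algebraic classes of the same weight, orthogonal, one with positive and one with negative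
square. -/
structure Hyp (W : WeilCohomology.{u, v} ops) (X : 𝒱.Obj) (D : X.Cycles)
    (f : Module.End W.K (W.H X)) (a c : W.H X) (qa qc : ℚ) (w : W.K) : Prop where
  ha : AS W X a
  hc : AS W X c
  wa : wt (W.isInternal X) X.dim a = w • a
  wc : wt (W.isInternal X) X.dim c = w • c
  ea : bf W X D f a a = qa
  ec : bf W X D f c c = qc
  pa : 0 < qa
  pc : qc < 0
  ac : bf W X D f a c = 0

namespace Hyp

variable {a c : W.H X} {qa qc : ℚ} {w : W.K} (H : Hyp W X D f a c qa qc w)

include H

lemma ca (S : Sy W X D f) : bf W X D f c a = 0 := by rw [bf_symm S H.ha, H.ac]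

lemma qa0 : (qa : W.K) ≠ 0 := Rat.cast_ne_zero.2 H.pa.ne'

lemma qc0 : (qc : W.K) ≠ 0 := Rat.cast_ne_zero.2 H.pc.ne

omit H in
/-- The composite of operators of rank one. -/
lemma R1_mul (a b c d : W.H X) : R1 W X D f a b * R1 W X D f c d =
    bf W X D f c b • R1 W X D f a d := by
  apply LinearMap.ext
  intro x
  rw [Module.End.mul_apply, R1_apply, R1_apply, LinearMap.smul_apply, R1_apply, map_smul,
    LinearMap.smul_apply, smul_eq_mul, smul_smul, mul_comm]

/-- There is a decomposition of the identity. -/
theorem decomp (F : Fr W X D f) (S : Sy W X D f) : ∃ A B C T T' : Module.End W.K (W.H X),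
    A + (B + C) = 1 ∧ OpP W X D f A A ∧ OpP W X D f B B ∧ OpP W X D f C C ∧
    OpP W X D f T T' ∧ A * A = A ∧ B * B = B ∧ C * C = C ∧ A * B = 0 ∧ A * C = 0 ∧ B * A = 0 ∧
    C * A = 0 ∧ B * C = 0 ∧ C * B = 0 ∧ T' * T = ((qa * qc : ℚ) : W.K) • B ∧
    T * T' = ((qa * qc : ℚ) : W.K) • C ∧ C * T = T ∧ B * T' = T' ∧
    Module.finrank W.K (LinearMap.range A) + 2 ≤ Module.finrank W.K (W.H X) := by
  have hca := H.ca S
  have h1 := H.qa0
  have h2 := H.qc0
  set B : Module.End W.K (W.H X) := ((qa⁻¹ : ℚ) : W.K) • R1 W X D f a a with hB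
  set C : Module.End W.K (W.H X) := ((qc⁻¹ : ℚ) : W.K) • R1 W X D f c c with hC
  set A : Module.End W.K (W.H X) := 1 + ((-1 : ℚ) : W.K) • (B + C) with hA
  have oB : OpP W X D f B B := (R1_opP F S H.ha H.ha H.wa H.wa).smul _
  have oC : OpP W X D f C C := (R1_opP F S H.hc H.hc H.wc H.wc).smul _
  have oA : OpP W X D f A A := OpP.one.add ((oB.add oC).smul _)
  have BB : B * B = B := by
    rw [hB, smul_mul_smul_comm, R1_mul, H.ea, smul_smul]
    congr 1
    push_cast
    field_simp
  have CC : C * C = C := by
    rw [hC, smul_mul_smul_comm, R1_mul, H.ec, smul_smul]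
    congr 1
    push_cast
    field_simp
  have BC : B * C = 0 := by
    rw [hB, hC, smul_mul_smul_comm, R1_mul, hca, zero_smul, smul_zero]
  have CB : C * B = 0 := by
    rw [hB, hC, smul_mul_smul_comm, R1_mul, H.ac, zero_smul, smul_zero]
  have hA' : A = 1 - (B + C) := by
    have hneg : ((-1 : ℚ) : W.K) • (B + C) = -(B + C) := by
      apply LinearMap.ext
      intro x
      rw [LinearMap.smul_apply, LinearMap.neg_apply, Rat.cast_neg, Rat.cast_one, neg_smul,
        one_smul]
    rw [hA, hneg, sub_eq_add_neg]
  have AB : A * B = 0 := by rw [hA', sub_mul, one_mul, add_mul, BB, CB, add_zero, sub_self]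
  have AC : A * C = 0 := by rw [hA', sub_mul, one_mul, add_mul, CC, BC, zero_add, sub_self]
  have BA' : B * A = 0 := by rw [hA', mul_sub, mul_one, mul_add, BB, BC, add_zero, sub_self]
  have CA : C * A = 0 := by rw [hA', mul_sub, mul_one, mul_add, CC, CB, zero_add, sub_self]
  have AA : A * A = A := by
    conv_lhs => rw [hA', mul_sub, mul_one, mul_add]
    have e1 : (1 - (B + C)) * B = 0 := by rw [← hA']; exact AB
    have e2 : (1 - (B + C)) * C = 0 := by rw [← hA']; exact AC
    rw [e1, e2, add_zero, sub_zero, hA']
  refine ⟨A, B, C, R1 W X D f c a, R1 W X D f a c, ?_, oA, oB, oC,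
    R1_opP F S H.hc H.ha H.wc H.wa, AA, BB, CC, AB, AC, BA', CA, BC, CB, ?_, ?_, ?_, ?_, ?_⟩
  · rw [hA', sub_add_cancel]
  · rw [R1_mul, H.ec, hB, smul_smul]
    congr 1
    push_cast
    field_simp
  · rw [R1_mul, H.ea, hC, smul_smul]
    congr 1
    push_cast
    field_simp
  · rw [hC, smul_mul_assoc, R1_mul, H.ec, smul_smul]
    push_cast
    rw [inv_mul_cancel₀ h2, one_smul]
  · rw [hB, smul_mul_assoc, R1_mul, H.ea, smul_smul]
    push_cast
    rw [inv_mul_cancel₀ h1, one_smul]
  · -- the kernel of `A` contains `a` and `c`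
    have hBa : B a = a := by
      rw [hB, LinearMap.smul_apply, R1_apply, H.ea, smul_smul]
      push_cast
      rw [inv_mul_cancel₀ h1, one_smul]
    have hCc : C c = c := by
      rw [hC, LinearMap.smul_apply, R1_apply, H.ec, smul_smul]
      push_cast
      rw [inv_mul_cancel₀ h2, one_smul]
    have hAa : A a = 0 := by
      have := congrArg (fun t => t a) AB
      rw [← hBa]
      exact this
    have hAc : A c = 0 := by
      have := congrArg (fun t => t c) AC
      rw [← hCc]
      exact this
    have hli : LinearIndependent W.K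
        ![(⟨a, hAa⟩ : LinearMap.ker A), (⟨c, hAc⟩ : LinearMap.ker A)] := by
      rw [LinearIndependent.pair_iff]
      intro s t hst
      have e0 : s • a + t • c = 0 := congrArg Subtype.val hst
      constructor
      · have e1 := congrArg (fun x => bf W X D f x a) e0
        simp only [map_add, map_smul, LinearMap.add_apply, LinearMap.smul_apply, smul_eq_mul,
          map_zero, LinearMap.zero_apply] at e1
        rw [H.ea, hca, mul_zero, add_zero] at e1
        exact (mul_eq_zero.1 e1).resolve_right h1
      · have e1 := congrArg (fun x => bf W X D f x c) e0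
        simp only [map_add, map_smul, LinearMap.add_apply, LinearMap.smul_apply, smul_eq_mul,
          map_zero, LinearMap.zero_apply] at e1
        rw [H.ec, H.ac, mul_zero, zero_add] at e1
        exact (mul_eq_zero.1 e1).resolve_right h2
    have h3 := hli.fintype_card_le_finrank
    rw [Fintype.card_fin] at h3
    have h4 := LinearMap.finrank_range_add_finrank_ker A
    omega

end Hyp

variable {P : Polarized 𝒱} {fP : Module.End W.K (W.H P.X)}

lemma sgn_congr (F : Fr W X D f) (m : ℤ) {g g' : Module.End W.K (W.H X)} (h : g = g') :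
    sgn F m g = sgn F m g' := by rw [h]

/-- **The bound for the signatures.** -/
theorem bound (G : Fr W P.X P.D fP) (GS : Sy W P.X P.D fP) {a c : W.H P.X} {qa qc : ℚ} {w : W.K}
    (H : Hyp W P.X P.D fP a c qa qc w) (m : ℤ) : ∀ (n : ℕ) {Z : Polarized 𝒱}
    {f : Module.End W.K (W.H Z.X)} (F : Fr W Z.X Z.D f) (_ : Sy W Z.X Z.D f)
    {g : Module.End W.K (W.H Z.X)} (_ : OpP W Z.X Z.D f g g) (_ : g * g = g),
    |sgn (tw_fr G n F) m (lft P W n Z g)| ≤
      (Module.finrank W.K (LinearMap.range g) * (Module.finrank W.K (W.H P.X) - 2) ^ n : ℕ)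
  | 0, Z, f, F, S, g, hg, gg => by
    rw [pow_zero, mul_one]
    exact abs_sgn_le F S m g
  | n + 1, Z, f, F, S, g, hg, gg => by
    obtain ⟨A, B, C, T, T', h1, oA, oB, oC, oT, AA, BB, CC, AB, AC, BA', CA, BC, CB, TT, TT',
      CT, BT, hrk⟩ := H.decomp G GS
    have ih := bound G GS H m n (Z := Z.prod ops P) (F.prod G) (Sy.prod F G S GS)
      (g := (extOp W g A : Module.End W.K (W.H (Z.X.prod P.X)))) (hg.ext F G oA)
      (by
        have := extOp_mul (W := W) g g A A
        rw [gg, AA] at this
        exact this)
    have hrk' : Module.finrank W.K (LinearMap.range (extOp W g A)) =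
        Module.finrank W.K (LinearMap.range g) * Module.finrank W.K (LinearMap.range A) :=
      Pool.Agent.Y133.Half.finrank_extOp gg AA
    -- the lifts
    set L := lft P W n (Z.prod ops P) with hL
    set F' := tw_fr G n (Z := Z.prod ops P) (F.prod G) with hF'
    have S' := tw_sy G GS n (Z := Z.prod ops P) (F.prod G) (Sy.prod F G S GS)
    have hop : ∀ {t t' : Module.End W.K (W.H P.X)}, OpP W P.X P.D fP t t' →
        OpP W (tw ops P n (Z.prod ops P)).X (tw ops P n (Z.prod ops P)).D
          (twF P fP n (Z.prod ops P) (extSum W f fP)) (L (extOp W g t)) (L (extOp W g t')) :=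
      fun ht => lft_opP G n (Z := Z.prod ops P) (F.prod G) (hg.ext F G ht)
    have hmul : ∀ t t' : Module.End W.K (W.H P.X),
        L (extOp W g t) * L (extOp W g t') = L (extOp W g (t * t')) := by
      intro t t'
      rw [← map_mul]
      congr 1
      have := extOp_mul (W := W) g g t t'
      rw [gg] at this
      exact this
    have hz : L (extOp W g (0 : Module.End W.K (W.H P.X))) = 0 := by
      rw [extOp_zero_right]
      exact map_zero L
    have hdec : lft P W (n + 1) Z g = L (extOp W g A) + (L (extOp W g B) + L (extOp W g C)) := by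
      change L (extOp W g 1) = _
      rw [← h1, extOp_add_right, extOp_add_right]
      have e := map_add L (extOp W g A) (extOp W g B + extOp W g C)
      have e' := map_add L (extOp W g B) (extOp W g C)
      exact e.trans (congrArg _ e')
    have e1 : sgn F' m (lft P W (n + 1) Z g) = sgn F' m (L (extOp W g A)) := by
      rw [sgn_congr F' m hdec]
      have hBC : OpP W (tw ops P n (Z.prod ops P)).X (tw ops P n (Z.prod ops P)).D
          (twF P fP n (Z.prod ops P) (extSum W f fP)) (L (extOp W g B) + L (extOp W g C))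
          (L (extOp W g B) + L (extOp W g C)) := (hop oB).add (hop oC)
      have sBC : (L (extOp W g B) + L (extOp W g C)) * (L (extOp W g B) + L (extOp W g C)) =
          L (extOp W g B) + L (extOp W g C) := by
        rw [add_mul, mul_add, mul_add, hmul, hmul, hmul, hmul, BB, CC, BC, CB, hz, add_zero,
          zero_add]
      have sA1 : L (extOp W g A) * (L (extOp W g B) + L (extOp W g C)) = 0 := by
        rw [mul_add, hmul, hmul, AB, AC, hz, add_zero]
      have sA2 : (L (extOp W g B) + L (extOp W g C)) * L (extOp W g A) = 0 := by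
        rw [add_mul, hmul, hmul, BA', CA, hz, add_zero]
      have sAA : L (extOp W g A) * L (extOp W g A) = L (extOp W g A) := by rw [hmul, AA]
      have sBB : L (extOp W g B) * L (extOp W g B) = L (extOp W g B) := by rw [hmul, BB]
      have sCC : L (extOp W g C) * L (extOp W g C) = L (extOp W g C) := by rw [hmul, CC]
      have sB0 : L (extOp W g B) * L (extOp W g C) = 0 := by rw [hmul, BC, hz]
      have sC0 : L (extOp W g C) * L (extOp W g B) = 0 := by rw [hmul, CB, hz]
      rw [sgn_add F' S' m (hop oA) hBC (fun x => congrArg (fun t => t x) sAA)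
        (fun x => congrArg (fun t => t x) sBC) (fun x => congrArg (fun t => t x) sA1)
        (fun x => congrArg (fun t => t x) sA2),
        sgn_add F' S' m (hop oB) (hop oC) (fun x => congrArg (fun t => t x) sBB)
        (fun x => congrArg (fun t => t x) sCC) (fun x => congrArg (fun t => t x) sB0)
        (fun x => congrArg (fun t => t x) sC0)]
      have hsm : ∀ t : Module.End W.K (W.H P.X), L (extOp W g (((qa * qc : ℚ) : W.K) • t)) =
          ((qa * qc : ℚ) : W.K) • L (extOp W g t) := by
        intro t
        rw [extOp_smul_right]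
        exact lft_smul _ n (Z := Z.prod ops P) _
      have t1 : L (extOp W g T') * L (extOp W g T) = ((qa * qc : ℚ) : W.K) • L (extOp W g B) := by
        rw [hmul, TT, hsm]
      have t2 : L (extOp W g T) * L (extOp W g T') = ((qa * qc : ℚ) : W.K) • L (extOp W g C) := by
        rw [hmul, TT', hsm]
      have t3 : L (extOp W g C) * L (extOp W g T) = L (extOp W g T) := by rw [hmul, CT]
      have t4 : L (extOp W g B) * L (extOp W g T') = L (extOp W g T') := by rw [hmul, BT]
      have := sgn_anti F' S' m (g₁ := L (extOp W g B)) (g₂ := L (extOp W g C)) (hop oT)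
        (c := qa * qc) (mul_neg_of_pos_of_neg H.pa H.pc) (fun x => congrArg (fun t => t x) t1)
        (fun x => congrArg (fun t => t x) t2) (fun x => congrArg (fun t => t x) t3)
        (fun x => congrArg (fun t => t x) t4)
      rw [this]
      ring
    change |sgn F' m (lft P W (n + 1) Z g)| ≤ _
    rw [e1]
    refine ih.trans ?_
    have h5 : Module.finrank W.K (LinearMap.range (extOp W g A)) ≤
        Module.finrank W.K (LinearMap.range g) * (Module.finrank W.K (W.H P.X) - 2) := by
      rw [hrk']
      exact Nat.mul_le_mul_left _ (by omega)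
    have h6 : Module.finrank W.K (LinearMap.range (extOp W g A)) *
        (Module.finrank W.K (W.H P.X) - 2) ^ n ≤ Module.finrank W.K (LinearMap.range g) *
        (Module.finrank W.K (W.H P.X) - 2) ^ (n + 1) := by
      calc _ ≤ Module.finrank W.K (LinearMap.range g) * (Module.finrank W.K (W.H P.X) - 2) *
            (Module.finrank W.K (W.H P.X) - 2) ^ n := Nat.mul_le_mul_right _ h5
        _ = _ := by ring
    exact_mod_cast h6

end Pool.Agent.H44T.SL
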