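import Pool.Agent.W539.Ker.Defs
import Pool.Agent.H914R2.KDefs

/-!
# Powers of polarized varieties, and the numbers of positive and negative primitive classes
-/

open CategoryTheory AlgebraicGeometry

universe u v

namespace Pool.Agent.H44T.SL

open Pool.Agent.H914 Pool.Agent.H914.VarClass Pool.Agent.H914.VarClass.Obj
  Pool.Agent.H281R3.HT Pool.Agent.W539.Ker

variable {k : Type u} [Field k] {𝒱 : VarClass k} {ops : CycleOps 𝒱}

/-- The polarized variety `P = (X, D)`: the cycle `D` is a divisor with `D ^ (dim X) > 0` which
satisfies hard Lefschetz, and the standard conjecture `B` of Lefschetz type holds for it. -/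
structure IsGood (W : WeilCohomology.{u, v} ops) (P : Polarized 𝒱) : Prop where
  /-- a divisor -/
  div : P.X.IsCyc 1 P.D
  /-- of positive degree -/
  deg : 0 < P.X.V.degCycle (divPow ops P.D P.X.dim P.X.V.fundCycle)
  /-- hard Lefschetz -/
  hard : HardLefschetz W P.X P.D
  /-- the standard conjecture of Lefschetz type -/
  lef : LefschetzB W P.X P.D

/-- The product `Z × X ^ r`, with the sum of the pull-backs of the divisors. -/
noncomputable def times (ops : CycleOps 𝒱) (Z X : Polarized 𝒱) : ℕ → Polarized 𝒱
  | 0 => Z
  | r + 1 => (times ops Z X r).prod ops X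

/-- The largest number of pairwise orthogonal primitive cycles of codimension `n` on `X` with
positive squares, for the pairing `(-1) ^ n deg (z · D ^ (d - 2 n) · w)`. -/
noncomputable def posNum (W : WeilCohomology.{u, v} ops) (X : 𝒱.Obj) (D : X.Cycles) (n : ℕ) : ℕ :=
  sSup {r | HasFamily W X D n 1 r}

/-- The largest number of pairwise orthogonal primitive cycles of codimension `n` on `X` with
negative squares. -/
noncomputable def negNum (W : WeilCohomology.{u, v} ops) (X : 𝒱.Obj) (D : X.Cycles) (n : ℕ) : ℕ :=
  sSup {r | HasFamily W X D n (-1) r}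

/-- The sum of the numbers `posNum` over all codimensions `n ≤ d / 2`. -/
noncomputable def posTotal (W : WeilCohomology.{u, v} ops) (P : Polarized 𝒱) : ℕ :=
  ∑ n ∈ Finset.range (P.X.dim / 2 + 1), posNum W P.X P.D n

/-- The sum of the numbers `negNum` over all codimensions `n ≤ d / 2`. -/
noncomputable def negTotal (W : WeilCohomology.{u, v} ops) (P : Polarized 𝒱) : ℕ :=
  ∑ n ∈ Finset.range (P.X.dim / 2 + 1), negNum W P.X P.D n

end Pool.Agent.H44T.SL
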