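import Pool.Agent.H44T.SL.Reg

/-!
# The law for the signatures on the products with the powers of a variety
-/

open CategoryTheory AlgebraicGeometry Finset

universe u v

namespace Pool.Agent.H44T.SL

open Pool.Agent.H914 Pool.Agent.H914.VarClass Pool.Agent.H914.VarClass.Obj
  Pool.Agent.H914.WeilCohomology Pool.Agent.H281R3.HT Pool.Agent.W552 Pool.Agent.W539.Ker

variable {k : Type u} [Field k] {𝒱 : VarClass k} {ops : CycleOps 𝒱}
  {W : WeilCohomology.{u, v} ops} {X Y : 𝒱.Obj} {D : X.Cycles} {f : Module.End W.K (W.H X)}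

lemma AS_algSpan {x : W.H X} (hx : AS W X x) : x ∈ algSpan W X := by
  refine AS.ind (p := fun w => w ∈ algSpan W X) ?_ ?_ hx
  · intro l w hw
    exact Submodule.subset_span (Set.mem_iUnion.2 ⟨l, hw⟩)
  · intro a b ha hb; exact Submodule.add_mem _ ha hb

/-- A class of degree one. -/
lemma exists_pt (hD : X.IsCyc 1 D)
    (hdeg : 0 < X.V.degCycle (divPow ops D X.dim X.V.fundCycle)) (W : WeilCohomology.{u, v} ops) :
    ∃ p ∈ (Y133.Half.algSys W).C X, W.tr X p = 1 := by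
  have h1 := tr_top (W := W) hD
  have h0 : ((X.V.degCycle (divPow ops D X.dim X.V.fundCycle) : ℚ) : W.K) ≠ 0 :=
    Rat.cast_ne_zero.2 hdeg.ne'
  refine ⟨((X.V.degCycle (divPow ops D X.dim X.V.fundCycle) : ℚ) : W.K)⁻¹ •
    ((LinearMap.mulLeft W.K (W.cl X D)) ^ X.dim) 1, ?_, ?_⟩
  · apply Submodule.smul_mem
    have h2 := divPow_mem (ops := ops) hD X.dim X.V.fundCycle_mem
    have h3 : W.cl X (divPow ops D X.dim X.V.fundCycle) =
        ((LinearMap.mulLeft W.K (W.cl X D)) ^ X.dim) 1 := by rw [cl_divPow, W.cl_fund]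
    rw [← h3]
    exact AS_algSpan (AS.of ⟨_, h2, rfl⟩)
  · rw [map_smul, h1, smul_eq_mul, inv_mul_cancel₀ h0]

/-- The data of a polarized variety which satisfies the Lefschetz standard conjecture. -/
structure Dat (W : WeilCohomology.{u, v} ops) (P : Polarized 𝒱)
    (f : Module.End W.K (W.H P.X)) : Prop where
  fr : Fr W P.X P.D f
  sy : Sy W P.X P.D f
  hard : HardLefschetz W P.X P.D
  deg : 0 < P.X.V.degCycle (divPow ops P.D P.X.dim P.X.V.fundCycle)

lemma IsGood.dat {P : Polarized 𝒱} (h : IsGood W P) : ∃ f, Dat W P f ∧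
    par (W.isInternal P.X) ∈ (Y133.Half.algSys W).Op P.X P.X := by
  obtain ⟨f, G⟩ := exists_gd h.div h.hard h.lef
  refine ⟨f, ⟨G.fr, G.sy, h.hard, h.deg⟩, ?_⟩
  obtain ⟨c, hc, hc'⟩ := G.pa
  rw [← hc']
  exact Y133.Half.Sys.Op.corr (AS_algSpan hc)

variable {P Z : Polarized 𝒱} {fP : Module.End W.K (W.H P.X)} {fZ : Module.End W.K (W.H Z.X)}

lemma Dat.tw (G : Dat W P fP) (F : Dat W Z fZ) (n : ℕ) :
    Dat W (tw ops P n Z) (twF P fP n Z fZ) where
  fr := tw_fr G.fr n F.fr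
  sy := tw_sy G.fr G.sy n F.fr F.sy
  hard := (tw_hard G.fr.hD G.hard n F.fr.hD F.hard).2
  deg := tw_deg G.fr G.deg n F.fr F.deg

lemma Dat.hss (F : Dat W Z fZ) (x : W.H Z.X) : st W Z.X Z.D fZ (st W Z.X Z.D fZ x) = x := by
  have t : LefStr (W.isInternal Z.X) Z.X.dim (LinearMap.mulLeft W.K (W.cl Z.X Z.D)) fZ :=
    ⟨mulLeft_isHom F.fr.hD, W_hbd, F.hard, F.fr.sl2⟩
  have h := t.star_star
  exact congrArg (fun u => u x) h

lemma finrank_pos (F : Dat W Z fZ) : 0 < Module.finrank W.K (W.H Z.X) := by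
  obtain ⟨p, _, hp⟩ := exists_pt F.fr.hD F.deg W
  have : Nontrivial (W.H Z.X) := ⟨⟨p, 0, Y133.Half.ne_zero_of_tr hp⟩⟩
  exact Module.finrank_pos

lemma a_tw_mono (G : Dat W P fP) (r : ℕ) (Z : Polarized 𝒱) :
    (Y133.Half.algSys W).a (tw ops P r Z).X ≤ (Y133.Half.algSys W).a (tw ops P (r + 1) Z).X := by
  obtain ⟨p, hp, hp1⟩ := exists_pt G.fr.hD G.deg W
  rw [tw_succ]
  exact a_mono _ hp hp1

/-- The growth of the rank. -/
lemma a_growth (G : Dat W P fP)
    (hpar : par (W.isInternal P.X) ∈ (Y133.Half.algSys W).Op P.X P.X) (F : Dat W Z fZ) (r : ℕ) :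
    Module.finrank W.K (W.H P.X) ^ (2 * (r / 2)) ≤ (Y133.Half.algSys W).a (tw ops P r Z).X *
      (r + 1) ^ (Module.finrank W.K (W.H P.X) ^ 2) := by
  obtain ⟨p, hp, hp1⟩ := exists_pt F.fr.hD F.deg W
  have key : ∀ l : ℕ, Module.finrank W.K (W.H P.X) ^ (2 * (l + 1)) ≤
      (Y133.Half.algSys W).a (tw ops P (2 * l + 2) Z).X *
        (l + 2) ^ (Module.finrank W.K (W.H P.X) ^ 2) := by
    intro l
    refine (al_growth (Y133.Half.algSys W) hpar l).trans (Nat.mul_le_mul_right _ ?_)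
    obtain ⟨θ⟩ := tw_iso (ops := ops) P Z (l + l + 1)
    have h1 : (Y133.Half.algSys W).a (tw ops P (l + l + 1 + 1) Z).X =
        (Y133.Half.algSys W).a (Z.X.prod (Y133.Half.pw P.X (l + l + 1))) :=
      (Y133.Half.algSys W).a_iso θ
    have h2 : (Y133.Half.algSys W).al P.X l =
        (Y133.Half.algSys W).a (Y133.Half.pw P.X (l + l + 1)) :=
      (Y133.Half.algSys W).a_iso (Y133.Half.pwAdd P.X l l)
    rw [h2, show 2 * l + 2 = l + l + 1 + 1 by ring, h1]
    exact a_mono' _ hp hp1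
  rcases Nat.eq_zero_or_pos (r / 2) with h | h
  · rw [h, Nat.mul_zero, pow_zero]
    obtain ⟨q, hq, hq1⟩ := exists_pt (G.tw F r).fr.hD (G.tw F r).deg W
    have h3 := Y133.Half.Sys.a_pos _ hq hq1
    exact Nat.mul_pos h3 (Nat.pow_pos (Nat.succ_pos r))
  · obtain ⟨l, hl⟩ : ∃ l, r / 2 = l + 1 := ⟨r / 2 - 1, by omega⟩
    rw [hl]
    refine (key l).trans (Nat.mul_le_mul ?_ (Nat.pow_le_pow_left (by omega) _))
    rcases Nat.mod_two_eq_zero_or_one r with h4 | h4
    · rw [show r = 2 * l + 2 by omega]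
    · have h5 := a_tw_mono G (2 * l + 2) Z
      rwa [show 2 * l + 2 + 1 = r by omega] at h5

/-- **The number of primitive classes is large.** -/
theorem total_ge (G : Dat W P fP)
    (hpar : par (W.isInternal P.X) ∈ (Y133.Half.algSys W).Op P.X P.X) (F : Dat W Z fZ) (r : ℕ) :
    Module.finrank W.K (W.H P.X) ^ r ≤ Module.finrank W.K (W.H P.X) *
      (Z.X.dim + P.X.dim + 1) * (r + 1) ^ (Module.finrank W.K (W.H P.X) ^ 2 + 1) *
        numTot W (tw ops P r Z).X (tw ops P r Z).D := by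
  set N := Module.finrank W.K (W.H P.X) with hN
  have hN1 : 0 < N := finrank_pos G
  have h1 := a_growth G hpar F r
  rw [← hN] at h1
  have h2 := a_le_num (G.tw F r).fr (G.tw F r).sy (G.tw F r).hss
  rw [tw_dim] at h2
  set T := numTot W (tw ops P r Z).X (tw ops P r Z).D with hT
  have h3 : Z.X.dim + r * P.X.dim + 1 ≤ (Z.X.dim + P.X.dim + 1) * (r + 1) := by
    nlinarith [Nat.zero_le (Z.X.dim * r), Nat.zero_le P.X.dim, Nat.zero_le r]
  calc N ^ r ≤ N ^ (2 * (r / 2) + 1) := Nat.pow_le_pow_right hN1 (by omega)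
    _ = N * N ^ (2 * (r / 2)) := by rw [pow_succ]; ring
    _ ≤ N * ((Y133.Half.algSys W).a (tw ops P r Z).X * (r + 1) ^ (N ^ 2)) :=
        Nat.mul_le_mul_left _ h1
    _ ≤ N * (((Z.X.dim + r * P.X.dim + 1) * T) * (r + 1) ^ (N ^ 2)) :=
        Nat.mul_le_mul_left _ (Nat.mul_le_mul_right _ h2)
    _ ≤ N * ((((Z.X.dim + P.X.dim + 1) * (r + 1)) * T) * (r + 1) ^ (N ^ 2)) :=
        Nat.mul_le_mul_left _ (Nat.mul_le_mul_right _ (Nat.mul_le_mul_right _ h3))
    _ = _ := by rw [pow_succ]; ring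

/-- The bound for the signatures, if a class on a power has a negative square. -/
theorem sig_le_pow (G : Dat W P fP) (F : Dat W Z fZ) {m n : ℕ}
    (hn : 2 * n ≤ (tw ops P m P).X.dim) {z : (tw ops P m P).X.Cycles}
    (hz : Primitive W (tw ops P m P).X (tw ops P m P).D n z)
    (hneg : pairing ops (tw ops P m P).X (tw ops P m P).D n z z < 0) (r : ℕ) {j : ℕ}
    (hj : 2 * j ≤ (tw ops P r Z).X.dim) :
    |sig W (tw ops P r Z).X (tw ops P r Z).D j| ≤
      2 * ((Module.finrank W.K (W.H Z.X) * Module.finrank W.K (W.H P.X) ^ (r % (m + 1)) *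
        (Module.finrank W.K (W.H P.X) ^ (m + 1) - 2) ^ (r / (m + 1)) : ℕ) : ℤ) := by
  set q := r / (m + 1) with hq
  set s := r % (m + 1) with hs
  have hr : r = (m + 1) * q + s := (Nat.div_add_mod r (m + 1)).symm
  have GY := G.tw G m
  have FZ := G.tw F s
  have e : PIso W (tw ops (tw ops P m P) q (tw ops P s Z)) (tw ops P r Z) := by
    have e1 := PIso.regroup (W := W) P m q (tw ops P s Z)
    rw [← PIso.tw_add, ← hr] at e1
    exact e1
  have hj' : 2 * j ≤ (tw ops (tw ops P m P) q (tw ops P s Z)).X.dim := by rw [e.dim]; exact hj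
  have h1 := sig_le GY.fr GY.sy FZ.fr FZ.sy GY.deg hn hz hneg q hj'
  rw [e.sig_eq (GY.tw FZ q).fr.hD (G.tw F r).fr.hD hj', tw_finrank, tw_finrank P m P,
    ← pow_succ'] at h1
  exact h1

end Pool.Agent.H44T.SL
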