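import Pool.Agent.Y133.Half.Main
import Pool.Agent.Y133.Half.TateSys
import Pool.Agent.Y163.Wed

/-!
# The growth of the rank of the intersection form on the products with powers
-/

open CategoryTheory AlgebraicGeometry

universe u v

namespace Pool.Agent.H44T.SL

open Module
open Pool.Agent.H914 Pool.Agent.H914.VarClass Pool.Agent.H914.VarClass.Obj
  Pool.Agent.H914.WeilCohomology Pool.Agent.Y133.Half

variable {k : Type u} [Field k] {𝒱 : VarClass k} {ops : CycleOps 𝒱}
  {W : WeilCohomology.{u, v} ops} {X Y Z M : 𝒱.Obj} (S : Sys W)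

lemma par_prod : par (W.isInternal (X.prod Y)) =
    extOp W (par (W.isInternal X)) (par (W.isInternal Y)) := by
  apply LinearMap.ext
  intro x
  refine W.kunneth_induction (p := fun x => par (W.isInternal (X.prod Y)) x =
    extOp W (par (W.isInternal X)) (par (W.isInternal Y)) x) ?_ ?_ x
  · intro a b ha hb
    rw [map_add, map_add, ha, hb]
  · intro i j a ha b hb
    rw [extOp_tmul, par, par, par, scal_apply _ _ (W.mul_mem (W.map_mem _ ha) (W.map_mem _ hb)),
      scal_apply _ _ ha, scal_apply _ _ hb, map_smul, map_smul, smul_mul_assoc, mul_smul_comm,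
      smul_smul, pow_add]

lemma par_pw_mem (hX : par (W.isInternal X) ∈ S.Op X X) :
    ∀ n, par (W.isInternal (pw X n)) ∈ S.Op (pw X n) (pw X n)
  | 0 => hX
  | n + 1 => by
    have h := Sys.Op.ext (par_pw_mem hX n) hX
    rw [← par_prod] at h
    exact h

/-- A semisimple algebra of operators of the system is at most as large as the rank of the
intersection form. -/
theorem rep_le_a (hp : par (W.isInternal M) ∈ S.Op M M) {N : ℕ}
    (ρ : Equiv.Perm (Fin N) →* Module.End W.K (W.H M)) (hρ : ∀ σ, ρ σ ∈ S.Op M M) :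
    finrank W.K (Submodule.span W.K (Set.range ρ)) ≤ S.a (M.prod M) := by
  have hR : Subalgebra.toSubmodule (repAlg ρ) = Submodule.span W.K (Set.range ρ) := by
    apply le_antisymm (repAlg_le ρ)
    rw [Submodule.span_le]
    rintro _ ⟨σ, rfl⟩
    exact rep_mem ρ σ
  have hle : Submodule.span W.K (Set.range ρ) ≤ S.Op M M := by
    rw [Submodule.span_le]
    rintro _ ⟨σ, rfl⟩
    exact hρ σ
  have hle' : Subalgebra.toSubmodule (repAlg ρ) ≤ S.Op M M := hR ▸ hle
  have hid : Ev W (1 : Module.End W.K (W.H M)) := Ev.id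
  have hadj : Adj W (1 : Module.End W.K (W.H M)) 1 := fun _ _ => rfl
  have h1 := S.rk_BO (M := M) (N := M) hid hid hadj
  rw [extOp_one] at h1
  change rk (A := S.Op M M) (B := S.Op M M) (S.BO M M 1 1) = S.a (M.prod M) at h1
  rw [← h1, ← hR]
  -- the two embeddings
  let i : Subalgebra.toSubmodule (repAlg ρ) →ₗ[W.K] S.Op M M := Submodule.inclusion hle'
  let j : Subalgebra.toSubmodule (repAlg ρ) →ₗ[W.K] S.Op M M :=
    { toFun := fun v => ⟨(v : Module.End W.K (W.H M)) ∘ₗ par (W.isInternal M),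
        Sys.Op.comp (hle' v.2) hp⟩
      map_add' := fun a b => Subtype.ext (by
        change ((a : Module.End W.K (W.H M)) + (b : Module.End W.K (W.H M))) ∘ₗ _ = _
        rw [LinearMap.add_comp]; rfl)
      map_smul' := fun c a => Subtype.ext (by
        change (c • (a : Module.End W.K (W.H M))) ∘ₗ _ = _
        rw [LinearMap.smul_comp]; rfl) }
  have h2 := rk_comp_le (A := S.Op M M) (B := S.Op M M)
    (A' := Subalgebra.toSubmodule (repAlg ρ)) (B' := Subalgebra.toSubmodule (repAlg ρ))
    (S.BO M M 1 1) i j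
  refine le_trans ?_ h2
  -- the trace form is nondegenerate
  have hpp : par (W.isInternal M) * par (W.isInternal M) = 1 := H914.par_mul_par _
  have hform : ∀ u v : Subalgebra.toSubmodule (repAlg ρ),
      ((S.BO M M 1 1).compl₁₂ i j) u v = LinearMap.trace W.K (W.H M)
        ((u : Module.End W.K (W.H M)) * v) := by
    intro u v
    rw [LinearMap.compl₁₂_apply, Sys.BO_apply]
    change LinearMap.trace W.K (W.H M) (par (W.isInternal M) * (1 *
      ((u : Module.End W.K (W.H M)) * (1 * ((v : Module.End W.K (W.H M)) *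
        par (W.isInternal M)))))) = _
    rw [one_mul, one_mul, LinearMap.trace_mul_comm, mul_assoc, mul_assoc, hpp, mul_one]
  have hinj : Function.Injective ((S.BO M M 1 1).compl₁₂ i j) := by
    intro u u' huu
    have h3 : (u : Module.End W.K (W.H M)) - (u' : Module.End W.K (W.H M)) ∈
        Y163.rad (repAlg ρ) := by
      refine ⟨Subalgebra.sub_mem _ u.2 u'.2, fun y hy => ?_⟩
      have h4 := hform u ⟨y, hy⟩
      have h4' := hform u' ⟨y, hy⟩
      rw [huu, h4'] at h4
      change LinearMap.trace W.K (W.H M) ((u' : Module.End W.K (W.H M)) * y) =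
        LinearMap.trace W.K (W.H M) ((u : Module.End W.K (W.H M)) * y) at h4
      rw [sub_mul, map_sub, ← h4, sub_self]
    have h5 := (Y163.mem_rad_iff (repAlg ρ) ⟨_, h3.1⟩).1 h3
    rw [IsSemisimpleRing.jacobson_eq_bot] at h5
    have h6 : (⟨_, h3.1⟩ : repAlg ρ) = 0 := h5
    exact Subtype.ext (sub_eq_zero.1 (congrArg Subtype.val h6))
  unfold rk
  rw [LinearMap.finrank_range_of_inj hinj]

/-- **The growth of the rank of the intersection form.** -/
theorem al_growth (hX : par (W.isInternal X) ∈ S.Op X X) (n : ℕ) :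
    finrank W.K (W.H X) ^ (2 * (n + 1)) ≤ S.al X n * (n + 2) ^ (finrank W.K (W.H X) ^ 2) := by
  classical
  obtain ⟨e, he⟩ := exists_hbasis W X
  have h := span_perm (wb e n) (rho W X n) (tau_wb e he n)
  have h3 := rep_le_a S (par_pw_mem S hX n) (rho W X n) (fun σ => Sys.Op.map _)
  rw [Pool.Agent.Y133.Half.finrank_pw, ← pow_mul, Fintype.card_fin] at h
  calc finrank W.K (W.H X) ^ (2 * (n + 1)) = finrank W.K (W.H X) ^ ((n + 1) * 2) := by
        rw [mul_comm]
    _ ≤ _ := h
    _ ≤ _ := Nat.mul_le_mul_right _ h3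

/-- The rank does not decrease in products. -/
theorem a_mono {p : W.H Z} (hp : p ∈ S.C Z) (hp1 : W.tr Z p = 1) :
    S.a Y ≤ S.a (Y.prod Z) := by
  let i : S.C Y →ₗ[W.K] S.C (Y.prod Z) := S.mapS (fst Y Z)
  let j : S.C Y →ₗ[W.K] S.C (Y.prod Z) :=
    { toFun := fun y => ⟨W.map (fst Y Z) (y : W.H Y) * W.map (snd Y Z) p,
        S.mul (S.map _ y.2) (S.map _ hp)⟩
      map_add' := fun a b => Subtype.ext (by
        change W.map (fst Y Z) ((a : W.H Y) + (b : W.H Y)) * _ = _
        rw [map_add, add_mul]; rfl)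
      map_smul' := fun c a => Subtype.ext (by
        change W.map (fst Y Z) (c • (a : W.H Y)) * _ = _
        rw [map_smul, smul_mul_assoc]; rfl) }
  have h1 : (S.F (Y.prod Z) 1).compl₁₂ i j = S.F Y 1 := by
    apply LinearMap.ext
    intro x
    apply LinearMap.ext
    intro y
    rw [LinearMap.compl₁₂_apply, Sys.F_apply, Sys.F_apply]
    change W.tr (Y.prod Z) (W.map (fst Y Z) (x : W.H Y) *
      (W.map (fst Y Z) (y : W.H Y) * W.map (snd Y Z) p)) = W.tr Y ((x : W.H Y) * (y : W.H Y))
    have h2 := tr_xp (W := W) ((x : W.H Y) * (y : W.H Y)) p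
    rw [hp1, mul_one, xp_def, map_mul (W.map (fst Y Z)), mul_assoc] at h2
    exact h2
  have h2 := rk_comp_le (S.F (Y.prod Z) 1) i j
  rw [h1] at h2
  exact h2

theorem a_mono' {p : W.H Z} (hp : p ∈ S.C Z) (hp1 : W.tr Z p = 1) :
    S.a Y ≤ S.a (Z.prod Y) := by
  rw [S.a_iso (prodComm Z Y)]
  exact a_mono S hp hp1

end Pool.Agent.H44T.SL
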