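import Pool.Agent.H44T.SL.Fin
import Mathlib.Analysis.SpecificLimits.Normed

/-!
# The share of the negative primitive classes on the products with the powers of a variety
-/

open CategoryTheory AlgebraicGeometry Finset

universe u v

namespace Pool.Agent.H44T.SL

open Pool.Agent.H914 Pool.Agent.H914.VarClass Pool.Agent.H914.VarClass.Obj
  Pool.Agent.H914.WeilCohomology Pool.Agent.H281R3.HT Pool.Agent.W552 Pool.Agent.W539.Ker
  Filter Topology

/-- Powers of numbers less than one dominate polynomials. -/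
lemma poly_geom {γ : ℝ} (h0 : 0 < γ) (h1 : γ < 1) (e : ℕ) :
    ∃ B : ℝ, 0 < B ∧ ∀ r : ℕ, ((r : ℝ) + 1) ^ e * γ ^ r ≤ B * (Real.sqrt γ) ^ r := by
  have hs0 : 0 < Real.sqrt γ := Real.sqrt_pos.2 h0
  have hs1 : Real.sqrt γ < 1 := by
    rw [Real.sqrt_lt' one_pos]; simpa using h1
  have h2 : Tendsto (fun n : ℕ => (n : ℝ) ^ e * (Real.sqrt γ) ^ n) atTop (𝓝 0) :=
    tendsto_pow_const_mul_const_pow_of_abs_lt_one e (by rwa [abs_of_pos hs0])
  have h3 : Tendsto (fun n : ℕ => ((n + 1 : ℕ) : ℝ) ^ e * (Real.sqrt γ) ^ (n + 1)) atTop (𝓝 0) :=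
    (tendsto_add_atTop_iff_nat 1).2 h2
  obtain ⟨B, hB⟩ := h3.bddAbove_range
  have hB' : ∀ r : ℕ, ((r + 1 : ℕ) : ℝ) ^ e * (Real.sqrt γ) ^ (r + 1) ≤ B :=
    fun r => hB ⟨r, rfl⟩
  have hB0 : 0 < B := lt_of_lt_of_le (by positivity) (hB' 0)
  refine ⟨B / Real.sqrt γ, by positivity, fun r => ?_⟩
  have h4 : γ ^ r = (Real.sqrt γ) ^ r * (Real.sqrt γ) ^ r := by
    rw [← mul_pow, Real.mul_self_sqrt h0.le]
  have h5 := hB' r
  push_cast at h5
  have h6 : ((r : ℝ) + 1) ^ e * (Real.sqrt γ) ^ r ≤ B / Real.sqrt γ := by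
    rw [le_div_iff₀ hs0]
    calc ((r : ℝ) + 1) ^ e * (Real.sqrt γ) ^ r * Real.sqrt γ =
        ((r : ℝ) + 1) ^ e * (Real.sqrt γ) ^ (r + 1) := by rw [pow_succ]; ring
      _ ≤ B := h5
  calc ((r : ℝ) + 1) ^ e * γ ^ r = (((r : ℝ) + 1) ^ e * (Real.sqrt γ) ^ r) * (Real.sqrt γ) ^ r := by
        rw [h4]; ring
    _ ≤ _ := mul_le_mul_of_nonneg_right h6 (by positivity)

/-- A root. -/
lemma exists_root {K M : ℕ} (hK : 2 ≤ K) (hM : 0 < M) : ∃ γ : ℝ, 0 < γ ∧ γ < 1 ∧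
    ∀ r : ℕ, (((K - 2 : ℕ) : ℝ)) ^ (r / M) * γ ^ M ≤ (K : ℝ) ^ (r / M) * γ ^ r := by
  set δ : ℝ := 1 - 1 / K with hδ
  have hK0 : (0 : ℝ) < K := by exact_mod_cast (by omega : 0 < K)
  have hK1 : (2 : ℝ) ≤ K := by exact_mod_cast hK
  have hd0 : 0 < δ := by
    rw [hδ, sub_pos, div_lt_one hK0]; linarith
  have hd1 : δ < 1 := by
    rw [hδ]; have : (0 : ℝ) < 1 / K := by positivity
    linarith
  set γ : ℝ := δ ^ ((M : ℝ)⁻¹) with hγ
  have hM' : M ≠ 0 := hM.ne'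
  have hγ0 : 0 < γ := Real.rpow_pos_of_pos hd0 _
  have hγM : γ ^ M = δ := Real.rpow_inv_natCast_pow hd0.le hM'
  have hγ1 : γ < 1 := by
    apply Real.rpow_lt_one hd0.le hd1
    positivity
  refine ⟨γ, hγ0, hγ1, fun r => ?_⟩
  have h1 : ((K - 2 : ℕ) : ℝ) ≤ K * δ := by
    rw [Nat.cast_sub hK, hδ, mul_sub, mul_one, mul_one_div, div_self hK0.ne']
    push_cast
    linarith
  have h2 : (((K - 2 : ℕ) : ℝ)) ^ (r / M) ≤ (K : ℝ) ^ (r / M) * γ ^ (M * (r / M)) := by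
    rw [pow_mul, hγM, ← mul_pow]
    exact pow_le_pow_left₀ (Nat.cast_nonneg _) h1 _
  have h3 : γ ^ (M * (r / M)) * γ ^ M ≤ γ ^ r := by
    rw [← pow_add]
    apply pow_le_pow_of_le_one hγ0.le hγ1.le
    have h4 := Nat.div_add_mod r M
    have h5 := Nat.mod_lt r hM
    omega
  calc (((K - 2 : ℕ) : ℝ)) ^ (r / M) * γ ^ M ≤ ((K : ℝ) ^ (r / M) * γ ^ (M * (r / M))) * γ ^ M :=
        mul_le_mul_of_nonneg_right h2 (by positivity)
    _ = (K : ℝ) ^ (r / M) * (γ ^ (M * (r / M)) * γ ^ M) := by ring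
    _ ≤ _ := mul_le_mul_of_nonneg_left h3 (by positivity)

variable {k : Type u} [Field k] {𝒱 : VarClass k} {ops : CycleOps 𝒱}
  {W : WeilCohomology.{u, v} ops}

lemma tw_eq_times (P Z : Polarized 𝒱) : ∀ r : ℕ, tw ops P r Z = times ops Z P r
  | 0 => rfl
  | r + 1 => by rw [tw_succ, tw_eq_times P Z r]; rfl

lemma numTot_eq (P : Polarized 𝒱) : numTot W P.X P.D = posTotal W P + negTotal W P := by
  rw [numTot, posTotal, negTotal, Finset.sum_add_distrib]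

lemma sig_num (P : Polarized 𝒱) (n : ℕ) :
    sig W P.X P.D n = (posNum W P.X P.D n : ℤ) - negNum W P.X P.D n := rfl

variable {P Z : Polarized 𝒱} {fP : Module.End W.K (W.H P.X)} {fZ : Module.End W.K (W.H Z.X)}

/-- The bound for a single signature, in terms of a geometric progression. -/
theorem law (hX : IsGood W P) {m n : ℕ} (hn : 2 * n ≤ (times ops P P m).X.dim)
    {z : (times ops P P m).X.Cycles}
    (hz : Primitive W (times ops P P m).X (times ops P P m).D n z)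
    (hneg : pairing ops (times ops P P m).X (times ops P P m).D n z z < 0) :
    ∃ γ : ℝ, 0 < γ ∧ γ < 1 ∧ ∀ Z : Polarized 𝒱, IsGood W Z → ∃ C : ℝ, 0 < C ∧ ∀ r : ℕ,
      (Module.finrank W.K (W.H P.X) : ℝ) ^ r ≤ C * (r + 1) ^ (Module.finrank W.K (W.H P.X) ^ 2 + 1) *
        ((posTotal W (times ops Z P r) : ℝ) + negTotal W (times ops Z P r)) ∧
      ∀ j : ℕ, 2 * j ≤ (times ops Z P r).X.dim →
        |(posNum W (times ops Z P r).X (times ops Z P r).D j : ℝ) -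
          negNum W (times ops Z P r).X (times ops Z P r).D j| ≤
            C * γ ^ r * (Module.finrank W.K (W.H P.X) : ℝ) ^ r := by
  revert z
  rw [← tw_eq_times] at hn ⊢
  intro z hz hneg
  obtain ⟨fP, G, hpar⟩ := hX.dat
  set N := Module.finrank W.K (W.H P.X) with hN
  have hN0 : 0 < N := finrank_pos G
  have hN0' : (0 : ℝ) < N := by exact_mod_cast hN0
  have GY := G.tw G m
  have h2 := two_le GY.fr GY.sy GY.deg hn hz hneg
  rw [tw_finrank, ← pow_succ', ← hN] at h2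
  obtain ⟨γ, hγ0, hγ1, hγ⟩ := exists_root h2 (Nat.succ_pos m)
  refine ⟨γ, hγ0, hγ1, fun Z hZ => ?_⟩
  obtain ⟨fZ, F, -⟩ := hZ.dat
  set h := Module.finrank W.K (W.H Z.X) with hh
  set C1 : ℝ := N * (Z.X.dim + P.X.dim + 1) with hC1
  set C2 : ℝ := 2 * h / γ ^ (m + 1) with hC2
  have hC1' : 0 < C1 := by positivity
  have hC2' : 0 ≤ C2 := by positivity
  refine ⟨C1 + C2, by positivity, fun r => ⟨?_, fun j hj => ?_⟩⟩
  · rw [← tw_eq_times]
    have h3 := total_ge G hpar F r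
    rw [← hN, numTot_eq] at h3
    have h4 : (N : ℝ) ^ r ≤ N * (Z.X.dim + P.X.dim + 1) * (r + 1) ^ (N ^ 2 + 1) *
        ((posTotal W (tw ops P r Z) : ℝ) + negTotal W (tw ops P r Z)) := by exact_mod_cast h3
    refine h4.trans ?_
    apply mul_le_mul_of_nonneg_right _ (by positivity)
    apply mul_le_mul_of_nonneg_right _ (by positivity)
    linarith
  · rw [← tw_eq_times] at hj ⊢
    have h3 := sig_le_pow G F hn hz hneg r hj
    rw [sig_num, ← hN, ← hh] at h3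
    have h4 : |(posNum W (tw ops P r Z).X (tw ops P r Z).D j : ℝ) -
        negNum W (tw ops P r Z).X (tw ops P r Z).D j| ≤
        2 * (h * N ^ (r % (m + 1)) * ((N ^ (m + 1) - 2 : ℕ) : ℝ) ^ (r / (m + 1))) := by
      exact_mod_cast h3
    refine h4.trans ?_
    have h5 := hγ r
    push_cast at h5
    have h6 : (N : ℝ) ^ r = N ^ (r % (m + 1)) * ((N : ℝ) ^ (m + 1)) ^ (r / (m + 1)) := by
      rw [← pow_mul, ← pow_add, Nat.mod_add_div]
    have h7 : ((N ^ (m + 1) - 2 : ℕ) : ℝ) ^ (r / (m + 1)) ≤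
        ((N : ℝ) ^ (m + 1)) ^ (r / (m + 1)) * γ ^ r / γ ^ (m + 1) := by
      rw [le_div_iff₀ (by positivity)]
      exact h5
    calc 2 * (h * N ^ (r % (m + 1)) * ((N ^ (m + 1) - 2 : ℕ) : ℝ) ^ (r / (m + 1))) ≤
        2 * (h * N ^ (r % (m + 1)) *
          (((N : ℝ) ^ (m + 1)) ^ (r / (m + 1)) * γ ^ r / γ ^ (m + 1))) := by gcongr
      _ = C2 * γ ^ r * (N : ℝ) ^ r := by rw [h6, hC2]; ring
      _ ≤ _ := by
        apply mul_le_mul_of_nonneg_right _ (by positivity)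
        apply mul_le_mul_of_nonneg_right _ (by positivity)
        linarith

end Pool.Agent.H44T.SL
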