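import Pool.Agent.H44T.SL.Num

/-!
# The signatures on the products with the powers of a variety
-/

open CategoryTheory AlgebraicGeometry Finset

universe u v

namespace Pool.Agent.H44T.SL

open Pool.Agent.H914 Pool.Agent.H914.VarClass Pool.Agent.H914.VarClass.Obj
  Pool.Agent.H914.WeilCohomology Pool.Agent.H281R3.HT Pool.Agent.W552 Pool.Agent.W539.Ker

variable {k : Type u} [Field k] {𝒱 : VarClass k} {ops : CycleOps 𝒱}
  {W : WeilCohomology.{u, v} ops} {X Y : 𝒱.Obj} {D : X.Cycles} {f : Module.End W.K (W.H X)}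

lemma tw_prod (P : Polarized 𝒱) : ∀ (n : ℕ) (Z : Polarized 𝒱),
    tw ops P n (Z.prod ops P) = (tw ops P n Z).prod ops P
  | 0, _ => rfl
  | n + 1, Z => tw_prod P n (Z.prod ops P)

lemma tw_succ (P : Polarized 𝒱) (n : ℕ) (Z : Polarized 𝒱) :
    tw ops P (n + 1) Z = (tw ops P n Z).prod ops P := tw_prod P n Z

lemma tw_dim (P : Polarized 𝒱) : ∀ (n : ℕ) (Z : Polarized 𝒱),
    (tw ops P n Z).X.dim = Z.X.dim + n * P.X.dim
  | 0, Z => by rw [zero_mul, add_zero]; rfl
  | n + 1, Z => by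
    change (tw ops P n (Z.prod ops P)).X.dim = _
    rw [tw_dim P n (Z.prod ops P)]
    change Z.X.dim + P.X.dim + n * P.X.dim = _
    ring

lemma tw_iso (P : Polarized 𝒱) (Z : Polarized 𝒱) : ∀ n : ℕ,
    Nonempty ((tw ops P (n + 1) Z).X ≅ Z.X.prod (Y133.Half.pw P.X n))
  | 0 => ⟨Iso.refl _⟩
  | n + 1 => by
    obtain ⟨θ⟩ := tw_iso P Z n
    rw [tw_succ P (n + 1) Z]
    exact ⟨Y133.Half.prodCongr θ (Iso.refl P.X) ≪≫ Y133.Half.θ₃ Z.X (Y133.Half.pw P.X n) P.X⟩

lemma tw_hard {P : Polarized 𝒱} (hD : P.X.IsCyc 1 P.D) (hHL : HardLefschetz W P.X P.D) :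
    ∀ (n : ℕ) {Z : Polarized 𝒱}, Z.X.IsCyc 1 Z.D → HardLefschetz W Z.X Z.D →
      (tw ops P n Z).X.IsCyc 1 (tw ops P n Z).D ∧
      HardLefschetz W (tw ops P n Z).X (tw ops P n Z).D
  | 0, _, h1, h2 => ⟨h1, h2⟩
  | n + 1, Z, h1, h2 => tw_hard hD hHL n (Z := Z.prod ops P)
      (SmVar.IsCyc.add (ops.pull_mem _ h1) (ops.pull_mem _ hD))
      (TH125.Gal.hardLefschetz_prod h1 hD h2 hHL)

lemma tr_top (hD : X.IsCyc 1 D) :
    W.tr X (((LinearMap.mulLeft W.K (W.cl X D)) ^ X.dim) 1) =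
      (X.V.degCycle (divPow ops D X.dim X.V.fundCycle) : W.K) := by
  have h1 := divPow_mem (ops := ops) hD X.dim X.V.fundCycle_mem
  rw [zero_add] at h1
  rw [← W.tr_cl h1, cl_divPow, W.cl_fund]

/-- The class of the variety is primitive, with positive square. -/
lemma fund_prim (hD : X.IsCyc 1 D) : Primitive W X D 0 X.V.fundCycle := by
  refine ⟨X.V.fundCycle_mem, ?_⟩
  have h1 := divPow_mem (ops := ops) hD (X.dim - 2 * 0 + 1) X.V.fundCycle_mem
  have h2 := W.cl_mem h1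
  rw [W.gr_eq_bot X _ (by omega), Submodule.mem_bot] at h2
  exact h2

lemma pairing_fund (W : WeilCohomology.{u, v} ops) (hD : X.IsCyc 1 D) : pairing ops X D 0 X.V.fundCycle X.V.fundCycle =
    X.V.degCycle (divPow ops D X.dim X.V.fundCycle) := by
  have h : ((pairing ops X D 0 X.V.fundCycle X.V.fundCycle : ℚ) : W.K) =
      (X.V.degCycle (divPow ops D X.dim X.V.fundCycle) : W.K) := by
    rw [pairing_cast hD (by omega) X.V.fundCycle_mem X.V.fundCycle_mem, W.cl_fund, one_mul,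
      pow_zero, one_mul, Nat.mul_zero, Nat.sub_zero, tr_top hD]
  exact_mod_cast h

/-- In codimension zero the pairing is nonnegative. -/
lemma pairing_zero (hD : X.IsCyc 1 D)
    (hdeg : 0 < X.V.degCycle (divPow ops D X.dim X.V.fundCycle)) {z : X.Cycles}
    (hz : X.IsCyc 0 z) (W : WeilCohomology.{u, v} ops) : 0 ≤ pairing ops X D 0 z z := by
  set δ := X.V.degCycle (divPow ops D X.dim X.V.fundCycle) with hδ
  have h1 : W.cl X z ∈ W.gr X 0 := W.cl_mem hz
  rw [(W.isPoincareAlgebra X).gr_zero] at h1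
  obtain ⟨κ, hκ⟩ := Submodule.mem_span_singleton.1 h1
  have hδ0 : (δ : W.K) ≠ 0 := Rat.cast_ne_zero.2 hdeg.ne'
  have h2 : W.tr X (((LinearMap.mulLeft W.K (W.cl X D)) ^ X.dim) (W.cl X z)) =
      (X.V.degCycle (divPow ops D X.dim z) : W.K) := by
    have h1 := divPow_mem (ops := ops) hD X.dim hz
    rw [zero_add] at h1
    rw [← W.tr_cl h1, cl_divPow]
  rw [← hκ, map_smul, map_smul, tr_top hD, smul_eq_mul] at h2
  obtain ⟨q, hq⟩ : ∃ q : ℚ, κ = q := by
    refine ⟨X.V.degCycle (divPow ops D X.dim z) / δ, ?_⟩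
    rw [Rat.cast_div, ← h2, mul_div_assoc, div_self hδ0, mul_one]
  have h3 : ((pairing ops X D 0 z z : ℚ) : W.K) = ((q * q * δ : ℚ) : W.K) := by
    rw [pairing_cast hD (by omega) hz hz, ← hκ, pow_zero, one_mul, Nat.mul_zero, Nat.sub_zero,
      map_smul, smul_mul_assoc, one_mul, map_smul, map_smul, tr_top hD, smul_eq_mul, smul_eq_mul,
      hq]
    push_cast
    ring
  have h4 : pairing ops X D 0 z z = q * q * δ := by exact_mod_cast h3
  rw [h4]
  exact mul_nonneg (mul_self_nonneg _) hdeg.le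

/-- A primitive class with negative square gives the hypothesis of the bound. -/
lemma exists_hyp (F : Fr W X D f) (hdeg : 0 < X.V.degCycle (divPow ops D X.dim X.V.fundCycle))
    {n : ℕ} (hn : 2 * n ≤ X.dim) {z : X.Cycles} (hz : Primitive W X D n z)
    (hneg : pairing ops X D n z z < 0) : ∃ a c qa qc w, Hyp W X D f a c qa qc w := by
  have hn0 : n ≠ 0 := by
    rintro rfl
    exact absurd (pairing_zero F.hD hdeg hz.1 W) (not_le.2 hneg)
  set L := LinearMap.mulLeft W.K (W.cl X D) with hL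
  have hf := fund_prim (W := W) F.hD
  have ha : (L ^ n) (W.cl X X.V.fundCycle) ∈ algClasses W X n := by
    have := (ap_alg F).map_L_pow n (c := W.cl X X.V.fundCycle) (l := 0)
      ⟨X.V.fundCycle, X.V.fundCycle_mem, rfl⟩
    rwa [zero_add] at this
  have hc : W.cl X z ∈ algClasses W X n := ⟨z, hz.1, rfl⟩
  have h1 := bf_same F (n := 0) (by omega) hf hf (j := n) (by omega)
  have h2 := bf_same F hn hz hz (j := 0) (by omega)
  have h3 := bf_cross F (n := 0) (n' := n) (by omega) hn (Ne.symm hn0) hf hz (j := n) (j' := 0)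
    (by omega) (by omega)
  rw [pow_zero, Module.End.one_apply] at h2 h3
  refine ⟨(L ^ n) (W.cl X X.V.fundCycle), W.cl X z, _, _, (2 * n : ℕ) - X.dim, AS.of ha, AS.of hc,
    Fr.wt_gr (alg_gr ha), Fr.wt_gr (alg_gr hc), h1, h2, ?_, ?_, h3⟩
  · rw [pairing_fund W F.hD]
    positivity
  · exact mul_neg_of_pos_of_neg (by positivity) hneg

/-- The sums of the signatures. -/
lemma wsum_low {d : ℕ} (σ : ℕ → ℤ) {n : ℕ} (hn : 2 * n ≤ d) :
    wsum d σ ((d : ℤ) - 2 * n) = ∑ j ∈ range (n + 1), σ j := by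
  rw [wsum, ← Finset.sum_filter]
  apply Finset.sum_congr _ fun _ _ => rfl
  ext j
  rw [Finset.mem_filter, Finset.mem_range, Finset.mem_range, abs_of_nonneg (by omega)]
  constructor
  · rintro ⟨h1, h2, _⟩
    omega
  · intro h1
    refine ⟨by omega, by omega, ?_⟩
    exact ⟨(d : ℤ) - n, by ring⟩

/-- **The bound for the signatures of the standard conjecture of Hodge type.** -/
theorem sig_le {P Z : Polarized 𝒱} {fP : Module.End W.K (W.H P.X)}
    {fZ : Module.End W.K (W.H Z.X)} (GP : Fr W P.X P.D fP) (SP : Sy W P.X P.D fP)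
    (GZ : Fr W Z.X Z.D fZ) (SZ : Sy W Z.X Z.D fZ)
    (hdeg : 0 < P.X.V.degCycle (divPow ops P.D P.X.dim P.X.V.fundCycle)) {n : ℕ}
    (hn : 2 * n ≤ P.X.dim) {z : P.X.Cycles} (hz : Primitive W P.X P.D n z)
    (hneg : pairing ops P.X P.D n z z < 0) (r : ℕ) {j : ℕ} (hj : 2 * j ≤ (tw ops P r Z).X.dim) :
    |sig W (tw ops P r Z).X (tw ops P r Z).D j| ≤
      2 * ((Module.finrank W.K (W.H Z.X) * (Module.finrank W.K (W.H P.X) - 2) ^ r : ℕ) : ℤ) := by
  obtain ⟨a, c, qa, qc, w, H⟩ := exists_hyp GP hdeg hn hz hneg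
  have F := tw_fr GP r GZ
  have S := tw_sy GP SP r GZ SZ
  have hb : ∀ m : ℤ, |wsum (tw ops P r Z).X.dim (sig W (tw ops P r Z).X (tw ops P r Z).D) m| ≤
      ((Module.finrank W.K (W.H Z.X) * (Module.finrank W.K (W.H P.X) - 2) ^ r : ℕ) : ℤ) := by
    intro m
    have h1 := bound GP SP H m r GZ SZ OpP.one (mul_one _)
    rw [map_one (lft P W r Z)] at h1
    have h2 := sgn_one (tw_fr GP r GZ) S m
    rw [h2] at h1
    refine h1.trans ?_
    have h3 : Module.finrank W.K (LinearMap.range (1 : Module.End W.K (W.H Z.X))) =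
        Module.finrank W.K (W.H Z.X) := Y133.Half.Sys.rank_one Z.X
    rw [h3]
  have h1 := hb (((tw ops P r Z).X.dim : ℤ) - 2 * j)
  rw [wsum_low _ hj] at h1
  rcases Nat.eq_zero_or_pos j with rfl | hj0
  · rw [zero_add, Finset.sum_range_one] at h1
    refine h1.trans ?_
    omega
  · have h2 := hb (((tw ops P r Z).X.dim : ℤ) - 2 * ((j - 1 : ℕ) : ℤ))
    rw [wsum_low _ (by omega), Nat.sub_add_cancel hj0] at h2
    rw [Finset.sum_range_succ] at h1
    set A := ∑ x ∈ range j, sig W (tw ops P r Z).X (tw ops P r Z).D x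
    have h3 := abs_sub_abs_le_abs_sub
      (sig W (tw ops P r Z).X (tw ops P r Z).D j) (-A)
    rw [sub_neg_eq_add, abs_neg, add_comm _ A] at h3
    omega

/-- The cohomology of the variety has dimension at least two. -/
lemma two_le {P : Polarized 𝒱} {fP : Module.End W.K (W.H P.X)} (GP : Fr W P.X P.D fP)
    (SP : Sy W P.X P.D fP)
    (hdeg : 0 < P.X.V.degCycle (divPow ops P.D P.X.dim P.X.V.fundCycle)) {n : ℕ}
    (hn : 2 * n ≤ P.X.dim) {z : P.X.Cycles} (hz : Primitive W P.X P.D n z)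
    (hneg : pairing ops P.X P.D n z z < 0) : 2 ≤ Module.finrank W.K (W.H P.X) := by
  obtain ⟨a, c, qa, qc, w, H⟩ := exists_hyp GP hdeg hn hz hneg
  obtain ⟨A, B, C, T, T', -, -, -, -, -, -, -, -, -, -, -, -, -, -, -, -, -, -, h⟩ :=
    H.decomp GP SP
  omega

lemma bf_one (F : Fr W X D f) : bf W X D f 1 1 = (((X.dim.factorial : ℚ)⁻¹ *
    X.V.degCycle (divPow ops D X.dim X.V.fundCycle) : ℚ) : W.K) := by
  have hf := fund_prim (W := W) F.hD
  have h1 := bf_same F (n := 0) (by omega) hf hf (j := 0) (by omega)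
  rw [pow_zero, Module.End.one_apply, W.cl_fund, pairing_fund W F.hD] at h1
  rw [h1]
  simp

/-- The degree of the sum divisor on a product is positive. -/
lemma deg_prod {Z P : Polarized 𝒱} {fP : Module.End W.K (W.H P.X)}
    {fZ : Module.End W.K (W.H Z.X)} (F : Fr W Z.X Z.D fZ) (G : Fr W P.X P.D fP)
    (h1 : 0 < Z.X.V.degCycle (divPow ops Z.D Z.X.dim Z.X.V.fundCycle))
    (h2 : 0 < P.X.V.degCycle (divPow ops P.D P.X.dim P.X.V.fundCycle)) :
    0 < (Z.prod ops P).X.V.degCycle (divPow ops (Z.prod ops P).D (Z.prod ops P).X.dim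
      (Z.prod ops P).X.V.fundCycle) := by
  have h3 := F.bf_ext G 1 1 1 1
  rw [H281R3.HT.ext, map_one, map_one, mul_one, bf_one F, bf_one G,
    bf_one (F.prod G)] at h3
  have h4 : (((Z.prod ops P).X.dim.factorial : ℚ)⁻¹ * (Z.prod ops P).X.V.degCycle
      (divPow ops (Z.prod ops P).D (Z.prod ops P).X.dim (Z.prod ops P).X.V.fundCycle)) =
      ((Z.X.dim.factorial : ℚ)⁻¹ * Z.X.V.degCycle (divPow ops Z.D Z.X.dim Z.X.V.fundCycle)) *
      ((P.X.dim.factorial : ℚ)⁻¹ * P.X.V.degCycle (divPow ops P.D P.X.dim P.X.V.fundCycle)) := by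
    exact_mod_cast h3
  have h5 : 0 < (((Z.prod ops P).X.dim.factorial : ℚ)⁻¹ * (Z.prod ops P).X.V.degCycle
      (divPow ops (Z.prod ops P).D (Z.prod ops P).X.dim (Z.prod ops P).X.V.fundCycle)) := by
    rw [h4]
    positivity
  exact pos_of_mul_pos_right h5 (by positivity)

lemma tw_deg {P : Polarized 𝒱} {fP : Module.End W.K (W.H P.X)} (G : Fr W P.X P.D fP)
    (h2 : 0 < P.X.V.degCycle (divPow ops P.D P.X.dim P.X.V.fundCycle)) :
    ∀ (n : ℕ) {Z : Polarized 𝒱} {fZ : Module.End W.K (W.H Z.X)} (_ : Fr W Z.X Z.D fZ)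
      (_ : 0 < Z.X.V.degCycle (divPow ops Z.D Z.X.dim Z.X.V.fundCycle)),
      0 < (tw ops P n Z).X.V.degCycle (divPow ops (tw ops P n Z).D (tw ops P n Z).X.dim
        (tw ops P n Z).X.V.fundCycle)
  | 0, _, _, _, h1 => h1
  | n + 1, Z, _, F, h1 => tw_deg G h2 n (Z := Z.prod ops P) (F.prod G) (deg_prod F G h1 h2)

lemma tw_finrank (P : Polarized 𝒱) : ∀ (n : ℕ) (Z : Polarized 𝒱),
    Module.finrank W.K (W.H (tw ops P n Z).X) =
      Module.finrank W.K (W.H Z.X) * Module.finrank W.K (W.H P.X) ^ n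
  | 0, Z => by rw [pow_zero, mul_one]; rfl
  | n + 1, Z => by
    change Module.finrank W.K (W.H (tw ops P n (Z.prod ops P)).X) = _
    rw [tw_finrank P n (Z.prod ops P)]
    have h : Module.finrank W.K (W.H (Z.prod ops P).X) =
        Module.finrank W.K (W.H Z.X) * Module.finrank W.K (W.H P.X) :=
      Y133.Half.finrank_prod Z.X P.X
    rw [h, pow_succ]
    ring

end Pool.Agent.H44T.SL
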