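import Pool.Agent.H44T.SL.Cnt
import Pool.Agent.H44T.SL.Bnd

/-!
# The rank of the intersection form and the number of primitive classes
-/

open CategoryTheory AlgebraicGeometry Finset

universe u v

namespace Pool.Agent.H44T.SL

open Pool.Agent.H914 Pool.Agent.H914.VarClass Pool.Agent.H914.VarClass.Obj
  Pool.Agent.H914.WeilCohomology Pool.Agent.H281R3.HT Pool.Agent.W552 Pool.Agent.W539.Ker

section Alg

variable {M : Type*} [AddCommGroup M] [Module ℚ M] {B : M →ₗ[ℚ] M →ₗ[ℚ] ℚ}

/-- A vector orthogonal to a maximal orthogonal family of anisotropic vectors is in the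
radical. -/
lemma om_radical (hB : ∀ x y, B x y = B y x) {ι : Type*} [Fintype ι] {x : ι → M} (h : OM B x)
    {u : M} (hu : ∀ i, B u (x i) = 0) (w : M) : B u w = 0 := by
  classical
  set p := ∑ i, (B w (x i) / B (x i) (x i)) • x i with hp
  have hpx : ∀ i, B p (x i) = B w (x i) := by
    intro i
    rw [hp, map_sum B, LinearMap.sum_apply, Finset.sum_eq_single i]
    · rw [map_smul, LinearMap.smul_apply, smul_eq_mul, div_mul_cancel₀ _ (h.ne i)]
    · intro j _ hj
      rw [map_smul, LinearMap.smul_apply, h.orth j i hj, smul_zero]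
    · intro h0; exact absurd (Finset.mem_univ _) h0
  have hw' : ∀ i, B (w - p) (x i) = 0 := fun i => by
    rw [map_sub, LinearMap.sub_apply, hpx, sub_self]
  have h1 := h.max u hu
  have h2 := h.max (w - p) hw'
  have h3 := h.max (u + (w - p)) (fun i => by
    rw [map_add, LinearMap.add_apply, hu, hw', add_zero])
  rw [map_add B, LinearMap.add_apply, map_add, map_add, h1, h2, hB (w - p) u] at h3
  have h4 : B u (w - p) = 0 := by linarith
  have h5 : B u p = 0 := by
    rw [hp, map_sum]
    apply Finset.sum_eq_zero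
    intro i _
    rw [map_smul, hu, smul_zero]
  rw [map_sub, h5, sub_zero] at h4
  exact h4

end Alg

variable {k : Type u} [Field k] {𝒱 : VarClass k} {ops : CycleOps 𝒱}
  {W : WeilCohomology.{u, v} ops} {X Y : 𝒱.Obj} {D : X.Cycles} {f : Module.End W.K (W.H X)}

attribute [local instance] ratM

/-- The total number of primitive classes. -/
noncomputable def numTot (W : WeilCohomology.{u, v} ops) (X : 𝒱.Obj) (D : X.Cycles) : ℕ :=
  ∑ n ∈ range (X.dim / 2 + 1), (posNum W X D n + negNum W X D n)

lemma exists_om' (F : Fr W X D f) (m : ℤ) : ∃ (ι : Type) (_ : Fintype ι)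
    (x : ι → AWs W X m 1), OM (BA F m 1) x ∧
    ∑ i, ((SignType.sign (BA F m 1 (x i) (x i)) : SignType) : ℤ) = wsum X.dim (sig W X D) m ∧
    Fintype.card ι ≤ numTot W X D := by
  obtain ⟨ι, hι, y, s, h1, h2, h3, h4, h5, h6, h7, h8⟩ := exists_fam' F m
  let x : ι → AWs W X m 1 := fun i => ⟨y i, h1 i, h2 i, rfl⟩
  have hs : ∀ i, BA F m 1 (x i) (x i) = s i := by
    intro i
    have : ((BA F m 1 (x i) (x i) : ℚ) : W.K) = (s i : W.K) := by rw [BA_cast]; exact h4 i
    exact_mod_cast this
  refine ⟨ι, hι, x, ⟨fun i => ?_, fun i j hij => ?_, fun v hv => ?_⟩, ?_, h8⟩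
  · rw [hs]; exact h3 i
  · rw [BA_eq_zero]; exact h5 i j hij
  · rw [BA_eq_zero]
    refine h6 _ v.2.1 v.2.2.1 fun i => ?_
    have := hv i
    rw [BA_eq_zero] at this
    exact this
  · rw [← h7]
    apply Finset.sum_congr rfl
    intro i _
    rw [hs]

/-- The signature on the classes of weight `m`. -/
theorem sgn_one (F : Fr W X D f) (S : Sy W X D f) (m : ℤ) :
    sgn F m 1 = wsum X.dim (sig W X D) m := by
  obtain ⟨ι, hι, x, hx, h1, _⟩ := exists_om' F m
  rw [sgn_eq F S hx, h1]

/-- **The rank of the intersection form is bounded by the number of primitive classes.** -/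
theorem a_le_num (F : Fr W X D f) (S : Sy W X D f)
    (hss : ∀ x, st W X D f (st W X D f x) = x) :
    (Y133.Half.algSys W).a X ≤ (X.dim + 1) * numTot W X D := by
  classical
  choose ι hι x hx _ hcard using fun j : Fin (X.dim + 1) =>
    exists_om' F (2 * (j : ℤ) - X.dim)
  let y : (Σ j, ι j) → W.H X := fun p => (x p.1 p.2 : W.H X)
  have hwt : ∀ (j : ℕ) (c : W.H X), c ∈ algClasses W X j →
      wt (W.isInternal X) X.dim c = ((2 * (j : ℤ) - X.dim : ℤ) : W.K) • c := by
    intro j c hc
    rw [Fr.wt_gr (alg_gr hc)]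
    congr 1
    push_cast
    ring
  -- orthogonality of different weights
  have hdiff : ∀ {m m' : ℤ} {c w : W.H X}, wt (W.isInternal X) X.dim c = (m : W.K) • c →
      wt (W.isInternal X) X.dim w = (m' : W.K) • w → m ≠ m' → bf W X D f c w = 0 := by
    intro m m' c w hc hw hne
    have h1 := wt_self F c w
    rw [hc, hw, map_smul, LinearMap.smul_apply, map_smul, smul_eq_mul, smul_eq_mul] at h1
    have h2 : ((m : W.K) - (m' : W.K)) * bf W X D f c w = 0 := by rw [sub_mul, h1, sub_self]
    rcases mul_eq_zero.1 h2 with h | h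
    · exact absurd (by exact_mod_cast sub_eq_zero.1 h) hne
    · exact h
  have key : (Y133.Half.algSys W).C X ≤ Submodule.span W.K (Set.range y) ⊔
      (Y133.Half.algSys W).Num X := by
    change algSpan W X ≤ _
    rw [algSpan, Submodule.span_le]
    intro c hc
    obtain ⟨j, hj⟩ := Set.mem_iUnion.1 hc
    by_cases hjd : X.dim < j
    · have h1 := alg_gr hj
      rw [W.gr_eq_bot X _ (by omega), Submodule.mem_bot] at h1
      rw [h1]
      exact Submodule.zero_mem _
    push Not at hjd
    let j' : Fin (X.dim + 1) := ⟨j, by omega⟩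
    let cc : AWs W X (2 * (j' : ℤ) - X.dim) 1 := ⟨c, AS.of hj, hwt j c hj, rfl⟩
    set p : AWs W X (2 * (j' : ℤ) - X.dim) 1 := ∑ i,
      (BA F _ 1 cc (x j' i) / BA F _ 1 (x j' i) (x j' i)) • x j' i with hp
    have hpx : ∀ i, BA F _ 1 p (x j' i) = BA F _ 1 cc (x j' i) := by
      intro i
      rw [hp, map_sum (BA F _ 1), LinearMap.sum_apply, Finset.sum_eq_single i]
      · rw [map_smul, LinearMap.smul_apply, smul_eq_mul, div_mul_cancel₀ _ ((hx j').ne i)]
      · intro l _ hl
        rw [map_smul, LinearMap.smul_apply, (hx j').orth l i hl, smul_zero]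
      · intro h0; exact absurd (Finset.mem_univ _) h0
    have hpy : (p : W.H X) ∈ Submodule.span W.K (Set.range y) := by
      rw [hp, AddSubmonoidClass.coe_finset_sum]
      refine Submodule.sum_mem _ fun i _ => ?_
      rw [Submodule.coe_smul, rat_smul]
      exact Submodule.smul_mem _ _ (Submodule.subset_span ⟨⟨j', i⟩, rfl⟩)
    have hrad : ∀ w : W.H X, AS W X w → bf W X D f ((cc - p : AWs W X _ 1) : W.H X) w = 0 := by
      intro w hw
      refine AS.ind (p := fun w => bf W X D f ((cc - p : AWs W X _ 1) : W.H X) w = 0)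
        ?_ ?_ hw
      · intro l w hw
        by_cases hl : l = j
        · subst hl
          let ww : AWs W X (2 * (j' : ℤ) - X.dim) 1 := ⟨w, AS.of hw, hwt l w hw, rfl⟩
          have h1 := om_radical (BA_symm F S) (hx j') (u := cc - p) (fun i => by
            rw [map_sub, LinearMap.sub_apply, hpx, sub_self]) ww
          rw [BA_eq_zero] at h1
          exact h1
        · refine hdiff (cc - p).2.2.1 (hwt l w hw) ?_
          change (2 * (j : ℤ) - X.dim) ≠ _
          omega
      · intro a b ha hb
        rw [map_add, ha, hb, add_zero]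
    have hnum : ((cc - p : AWs W X _ 1) : W.H X) ∈ (Y133.Half.algSys W).Num X := by
      refine ⟨?_, fun w hw => ?_⟩
      · have h1 : AS W X ((cc - p : AWs W X _ 1) : W.H X) := (cc - p).2.1
        change _ ∈ algSpan W X
        refine AS.ind (p := fun w => w ∈ algSpan W X) ?_ ?_ h1
        · intro l w hw
          exact Submodule.subset_span (Set.mem_iUnion.2 ⟨l, hw⟩)
        · intro a b ha hb; exact Submodule.add_mem _ ha hb
      · change w ∈ algSpan W X at hw
        rw [algSpan] at hw
        induction hw using Submodule.span_induction with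
        | mem w hw =>
          obtain ⟨l, hl⟩ := Set.mem_iUnion.1 hw
          have h1 := hrad _ (F.st_AS (AS.of hl))
          rw [bf_apply, hss] at h1
          exact h1
        | zero => rw [mul_zero, map_zero]
        | add a b _ _ ha hb => rw [mul_add, map_add, ha, hb, add_zero]
        | smul r a _ ha => rw [mul_smul_comm, map_smul, ha, smul_zero]
    have hsum : c = (p : W.H X) + ((cc - p : AWs W X _ 1) : W.H X) := by
      rw [Submodule.coe_sub]
      change c = (p : W.H X) + (c - (p : W.H X))
      abel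
    rw [hsum]
    exact Submodule.add_mem_sup hpy hnum
  have h1 := (Y133.Half.algSys W).a_add_num X
  have h2 := Submodule.finrank_mono key
  have h3 := Submodule.finrank_add_le_finrank_add_finrank (Submodule.span W.K (Set.range y))
    ((Y133.Half.algSys W).Num X)
  have h4 : Module.finrank W.K (Submodule.span W.K (Set.range y)) ≤ Fintype.card (Σ j, ι j) :=
    finrank_range_le_card y
  have h5 : Fintype.card (Σ j, ι j) ≤ (X.dim + 1) * numTot W X D := by
    rw [Fintype.card_sigma]
    calc ∑ j, Fintype.card (ι j) ≤ ∑ _j : Fin (X.dim + 1), numTot W X D :=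
          Finset.sum_le_sum fun j _ => hcard j
      _ = _ := by simp
  omega

end Pool.Agent.H44T.SL
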