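import Pool.Agent.H44T.SL.Main

/-!
# Regrouping the factors of a product
-/

open CategoryTheory AlgebraicGeometry Finset

universe u v

namespace Pool.Agent.H44T.SL

open Pool.Agent.H914 Pool.Agent.H914.VarClass Pool.Agent.H914.VarClass.Obj
  Pool.Agent.H914.WeilCohomology Pool.Agent.H281R3.HT Pool.Agent.W552 Pool.Agent.W539.Ker
  Pool.Agent.Y133.Half

variable {k : Type u} [Field k] {𝒱 : VarClass k} {ops : CycleOps 𝒱}
  {W : WeilCohomology.{u, v} ops} {P Q R : Polarized 𝒱}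

/-- An isomorphism of polarized varieties, as seen by the cohomology. -/
structure PIso (W : WeilCohomology.{u, v} ops) (P Q : Polarized 𝒱) where
  /-- the isomorphism -/
  θ : P.X ≅ Q.X
  cl : W.map θ.hom (W.cl Q.X Q.D) = W.cl P.X P.D
  dim : P.X.dim = Q.X.dim
  tr : ∀ b, W.tr P.X (W.map θ.hom b) = W.tr Q.X b

namespace PIso

/-- The identity. -/
noncomputable def refl (P : Polarized 𝒱) : PIso W P P where
  θ := Iso.refl _
  cl := W.map_id _ _
  dim := rfl
  tr b := congrArg _ (W.map_id _ b)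

/-- The inverse. -/
noncomputable def symm (e : PIso W P Q) : PIso W Q P where
  θ := e.θ.symm
  cl := by
    change W.map e.θ.inv _ = _
    rw [← e.cl, ← W.map_comp, e.θ.inv_hom_id, W.map_id]
  dim := e.dim.symm
  tr b := by
    change W.tr Q.X (W.map e.θ.inv b) = _
    rw [← e.tr, ← W.map_comp, e.θ.hom_inv_id, W.map_id]

/-- The composite. -/
noncomputable def trans (e : PIso W P Q) (e' : PIso W Q R) : PIso W P R where
  θ := e.θ ≪≫ e'.θ
  cl := by
    change W.map (e.θ.hom ≫ e'.θ.hom) _ = _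
    rw [W.map_comp, e'.cl, e.cl]
  dim := e.dim.trans e'.dim
  tr b := by
    change W.tr P.X (W.map (e.θ.hom ≫ e'.θ.hom) b) = _
    rw [W.map_comp, e.tr, e'.tr]

lemma congr_xp (θ : P.X ≅ Q.X) (x : W.H Q.X) (y : W.H R.X) :
    W.map (prodCongr θ (Iso.refl R.X)).hom (xp W x y) = xp W (W.map θ.hom x) y := by
  have e1 : (prodCongr θ (Iso.refl R.X)).hom ≫ fst _ _ = fst _ _ ≫ θ.hom := Obj.lift_fst _ _
  have e2 : (prodCongr θ (Iso.refl R.X)).hom ≫ snd _ _ = snd _ _ ≫ (Iso.refl R.X).hom :=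
    Obj.lift_snd _ _
  rw [map_xp, e1, e2, W.map_comp, W.map_comp, xp_def]
  change _ * W.map (snd P.X R.X) (W.map (𝟙 R.X) y) = _
  rw [W.map_id]

/-- Products with a further factor. -/
noncomputable def prod (e : PIso W P Q) (R : Polarized 𝒱) :
    PIso W (P.prod ops R) (Q.prod ops R) where
  θ := prodCongr e.θ (Iso.refl R.X)
  cl := by
    change W.map (prodCongr e.θ (Iso.refl R.X)).hom (W.cl (Q.X.prod R.X)
      (ops.pull (fst _ _) Q.D + ops.pull (snd _ _) R.D)) = W.cl (P.X.prod R.X)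
      (ops.pull (fst _ _) P.D + ops.pull (snd _ _) R.D)
    have h1 := congr_xp (R := R) e.θ (W.cl Q.X Q.D) 1
    have h2 := congr_xp (R := R) e.θ (1 : W.H Q.X) (W.cl R.X R.D)
    rw [xp_def, xp_def, map_one, map_one, mul_one, mul_one, e.cl] at h1
    rw [xp_def, xp_def, map_one, map_one, map_one, one_mul, one_mul] at h2
    rw [map_add, map_add, map_add, W.cl_pull, W.cl_pull, W.cl_pull, W.cl_pull]
    exact congrArg₂ (· + ·) h1 h2
  dim := by
    change P.X.dim + R.X.dim = Q.X.dim + R.X.dim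
    rw [e.dim]
  tr b := by
    refine xp_induction (p := fun b => W.tr (P.X.prod R.X)
      (W.map (prodCongr e.θ (Iso.refl R.X)).hom b) = W.tr (Q.X.prod R.X) b) ?_ ?_ b
    · intro a b ha hb
      rw [map_add, map_add, map_add, ha, hb]
    · intro i j x _ y _
      have h := congr_xp (R := R) (W := W) e.θ x y
      rw [h, tr_xp, tr_xp, e.tr]

/-- Associativity. -/
noncomputable def assoc (P Q R : Polarized 𝒱) :
    PIso W ((P.prod ops Q).prod ops R) (P.prod ops (Q.prod ops R)) where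
  θ := θ₃ P.X Q.X R.X
  cl := by
    have key : W.map (θ₃ P.X Q.X R.X).hom (W.cl (P.X.prod (Q.X.prod R.X))
      (ops.pull (fst P.X (Q.X.prod R.X)) P.D + ops.pull (snd P.X (Q.X.prod R.X))
        (ops.pull (fst Q.X R.X) Q.D + ops.pull (snd Q.X R.X) R.D))) =
      W.cl ((P.X.prod Q.X).prod R.X) (ops.pull (fst (P.X.prod Q.X) R.X)
        (ops.pull (fst P.X Q.X) P.D + ops.pull (snd P.X Q.X) Q.D) +
          ops.pull (snd (P.X.prod Q.X) R.X) R.D) := by
      have h1 := θ₃_xp (W := W) (W.cl P.X P.D) (1 : W.H Q.X) (1 : W.H R.X)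
      have h2 := θ₃_xp (W := W) (1 : W.H P.X) (W.cl Q.X Q.D) (1 : W.H R.X)
      have h3 := θ₃_xp (W := W) (1 : W.H P.X) (1 : W.H Q.X) (W.cl R.X R.D)
      simp only [xp_def, map_one, mul_one, one_mul] at h1 h2 h3
      simp only [map_add, W.cl_pull]
      rw [h1, h2, h3, add_assoc]
    exact key
  dim := by
    change P.X.dim + Q.X.dim + R.X.dim = P.X.dim + (Q.X.dim + R.X.dim)
    rw [add_assoc]
  tr b := by
    change W.tr ((P.X.prod Q.X).prod R.X) (W.map (θ₃ P.X Q.X R.X).hom b) = _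
    refine xp_induction (p := fun b => W.tr ((P.X.prod Q.X).prod R.X)
      (W.map (θ₃ P.X Q.X R.X).hom b) = W.tr (P.X.prod (Q.X.prod R.X)) b) ?_ ?_ b
    · intro a b ha hb
      rw [map_add, map_add, map_add, ha, hb]
    · intro i j x _ y _
      refine xp_induction (p := fun y => W.tr ((P.X.prod Q.X).prod R.X)
        (W.map (θ₃ P.X Q.X R.X).hom (xp W x y)) = W.tr (P.X.prod (Q.X.prod R.X)) (xp W x y))
        ?_ ?_ y
      · intro a b ha hb
        rw [xp_add_right, map_add, map_add, map_add, ha, hb]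
      · intro i' j' z _ w _
        rw [θ₃_xp, tr_xp, tr_xp, tr_xp, tr_xp, mul_assoc]

/-- Towers over isomorphic varieties. -/
noncomputable def tower (P : Polarized 𝒱) : ∀ (n : ℕ) {Q R : Polarized 𝒱}, PIso W Q R →
    PIso W (tw ops P n Q) (tw ops P n R)
  | 0, _, _, e => e
  | n + 1, Q, R, e => tower P n (Q := Q.prod ops P) (R := R.prod ops P) (e.prod P)

lemma hasFamily (e : PIso W P Q) (hP : P.X.IsCyc 1 P.D) (hQ : Q.X.IsCyc 1 Q.D) {n : ℕ}
    (hn : 2 * n ≤ P.X.dim) {s : ℚ} {r : ℕ} (h : HasFamily W Q.X Q.D n s r) :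
    HasFamily W P.X P.D n s r := by
  obtain ⟨z, hz, hpos, horth⟩ := h
  have hpow : ∀ (m : ℕ) (x : W.H Q.X),
      ((LinearMap.mulLeft W.K (W.cl P.X P.D)) ^ m) (W.map e.θ.hom x) =
        W.map e.θ.hom (((LinearMap.mulLeft W.K (W.cl Q.X Q.D)) ^ m) x) := by
    intro m
    induction m with
    | zero => intro x; simp
    | succ m ih =>
      intro x
      rw [pow_succ, Module.End.mul_apply, LinearMap.mulLeft_apply, ← e.cl, ← map_mul, e.cl, ih,
        pow_succ, Module.End.mul_apply, LinearMap.mulLeft_apply]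
  have hprim : ∀ i, Primitive W P.X P.D n (ops.pull e.θ.hom (z i)) := by
    intro i
    refine ⟨ops.pull_mem _ (hz i).1, ?_⟩
    have h1 := (hz i).2
    rw [cl_divPow] at h1
    rw [cl_divPow, W.cl_pull, hpow, e.dim, h1, map_zero]
  have hpair : ∀ i j, pairing ops P.X P.D n (ops.pull e.θ.hom (z i))
      (ops.pull e.θ.hom (z j)) = pairing ops Q.X Q.D n (z i) (z j) := by
    intro i j
    have h1 : ((pairing ops P.X P.D n (ops.pull e.θ.hom (z i))
      (ops.pull e.θ.hom (z j)) : ℚ) : W.K) =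
        ((pairing ops Q.X Q.D n (z i) (z j) : ℚ) : W.K) := by
      rw [pairing_cast hP hn (hprim i).1 (hprim j).1,
        pairing_cast hQ (by rw [← e.dim]; exact hn) (hz i).1 (hz j).1, W.cl_pull, W.cl_pull,
        hpow, ← map_mul, e.tr, e.dim]
    exact_mod_cast h1
  exact ⟨fun i => ops.pull e.θ.hom (z i), hprim, fun i => by rw [hpair]; exact hpos i,
    fun i j hij => by rw [hpair]; exact horth i j hij⟩

lemma hasFamily_iff (e : PIso W P Q) (hP : P.X.IsCyc 1 P.D) (hQ : Q.X.IsCyc 1 Q.D) {n : ℕ}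
    (hn : 2 * n ≤ P.X.dim) {s : ℚ} {r : ℕ} :
    HasFamily W P.X P.D n s r ↔ HasFamily W Q.X Q.D n s r :=
  ⟨e.symm.hasFamily hQ hP (by rw [← e.dim]; exact hn), e.hasFamily hP hQ hn⟩

lemma sig_eq (e : PIso W P Q) (hP : P.X.IsCyc 1 P.D) (hQ : Q.X.IsCyc 1 Q.D) {n : ℕ}
    (hn : 2 * n ≤ P.X.dim) : W539.Ker.sig W P.X P.D n = W539.Ker.sig W Q.X Q.D n := by
  rw [W539.Ker.sig, W539.Ker.sig]
  simp only [e.hasFamily_iff hP hQ hn]

/-- `Z × (P × P ^ m)` is `Z × P ^ (m + 1)`. -/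
noncomputable def grp (P Z : Polarized 𝒱) : ∀ m : ℕ,
    PIso W (Z.prod ops (tw ops P m P)) (tw ops P (m + 1) Z)
  | 0 => refl _
  | m + 1 => by
    have e := (grp P Z m).prod (W := W) P
    rw [← tw_succ P (m + 1) Z] at e
    refine trans ?_ e
    rw [tw_succ P m P]
    exact (assoc Z (tw ops P m P) P).symm

lemma tw_add (P : Polarized 𝒱) (a : ℕ) : ∀ (b : ℕ) (Z : Polarized 𝒱),
    tw ops P (a + b) Z = tw ops P a (tw ops P b Z)
  | 0, _ => rfl
  | b + 1, Z => tw_add P a b (Z.prod ops P)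

/-- Regrouping. -/
noncomputable def regroup (P : Polarized 𝒱) (m : ℕ) : ∀ (q : ℕ) (Z : Polarized 𝒱),
    PIso W (tw ops (tw ops P m P) q Z) (tw ops P ((m + 1) * q) Z)
  | 0, Z => by
    rw [Nat.mul_zero]
    exact refl _
  | q + 1, Z => by
    have e1 : PIso W (tw ops (tw ops P m P) q (Z.prod ops (tw ops P m P)))
      (tw ops (tw ops P m P) q (tw ops P (m + 1) Z)) := tower _ q (grp P Z m)
    have e2 := e1.trans (regroup P m q (tw ops P (m + 1) Z))
    rw [Nat.mul_succ, tw_add P ((m + 1) * q) (m + 1) Z]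
    exact e2

end PIso

end Pool.Agent.H44T.SL
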