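import Pool.Agent.W539.Ker.Fam
import Pool.Agent.Y133.Half.CS

/-!
# The signature of the form on the algebraic classes cut out by a projector
-/

open CategoryTheory AlgebraicGeometry Finset

universe u v

namespace Pool.Agent.H44T.SL

open Pool.Agent.H914 Pool.Agent.H914.VarClass Pool.Agent.H914.VarClass.Obj
  Pool.Agent.H914.WeilCohomology Pool.Agent.H281R3.HT Pool.Agent.W552 Pool.Agent.W539.Ker

variable {k : Type u} [Field k] {𝒱 : VarClass k} {ops : CycleOps 𝒱}
  {W : WeilCohomology.{u, v} ops} {X Y Z : 𝒱.Obj} {D : X.Cycles} {f : Module.End W.K (W.H X)}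

/-- The rational structure of the cohomology groups. -/
@[reducible] noncomputable def ratM (W : WeilCohomology.{u, v} ops) (X : 𝒱.Obj) : Module ℚ (W.H X) :=
  Module.compHom (W.H X) (algebraMap ℚ W.K)

attribute [local instance] ratM

lemma rat_smul (q : ℚ) (x : W.H X) : q • x = (q : W.K) • x := by
  change (algebraMap ℚ W.K q) • x = _
  rw [eq_ratCast]

/-- The algebraic classes of weight `m` which are fixed by `g`. -/
noncomputable def AWs (W : WeilCohomology.{u, v} ops) (X : 𝒱.Obj) (m : ℤ)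
    (g : Module.End W.K (W.H X)) : Submodule ℚ (W.H X) where
  carrier := {v | AS W X v ∧ wt (W.isInternal X) X.dim v = (m : W.K) • v ∧ g v = v}
  add_mem' := by
    rintro a b ⟨ha, ha', ha''⟩ ⟨hb, hb', hb''⟩
    exact ⟨ha.add hb, by rw [map_add, ha', hb', smul_add], by rw [map_add, ha'', hb'']⟩
  zero_mem' := ⟨AS.zero, by rw [map_zero, smul_zero], map_zero _⟩
  smul_mem' := by
    rintro q a ⟨ha, ha', ha''⟩
    rw [rat_smul]
    exact ⟨ha.smul q, by rw [map_smul, ha', smul_comm], by rw [map_smul, ha'']⟩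

/-- The form on the algebraic classes of weight `m` fixed by `g`. -/
noncomputable def BA (F : Fr W X D f) (m : ℤ) (g : Module.End W.K (W.H X)) :
    AWs W X m g →ₗ[ℚ] AWs W X m g →ₗ[ℚ] ℚ :=
  LinearMap.mk₂ ℚ (fun v w => (F.bf_rat v.2.1 w.2.1).choose)
    (fun v v' w => by
      have h1 := (F.bf_rat (v + v').2.1 w.2.1).choose_spec
      have h2 := (F.bf_rat v.2.1 w.2.1).choose_spec
      have h3 := (F.bf_rat v'.2.1 w.2.1).choose_spec
      have h4 : (((F.bf_rat (v + v').2.1 w.2.1).choose : ℚ) : W.K) =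
          (((F.bf_rat v.2.1 w.2.1).choose + (F.bf_rat v'.2.1 w.2.1).choose : ℚ) : W.K) := by
        rw [Rat.cast_add, ← h1, ← h2, ← h3, Submodule.coe_add, map_add, LinearMap.add_apply]
      exact_mod_cast h4)
    (fun q v w => by
      have h1 := (F.bf_rat (q • v).2.1 w.2.1).choose_spec
      have h2 := (F.bf_rat v.2.1 w.2.1).choose_spec
      have h4 : (((F.bf_rat (q • v).2.1 w.2.1).choose : ℚ) : W.K) =
          ((q * (F.bf_rat v.2.1 w.2.1).choose : ℚ) : W.K) := by
        rw [Rat.cast_mul, ← h1, ← h2, Submodule.coe_smul, rat_smul, map_smul,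
          LinearMap.smul_apply, smul_eq_mul]
      exact_mod_cast h4)
    (fun w v v' => by
      have h1 := (F.bf_rat w.2.1 (v + v').2.1).choose_spec
      have h2 := (F.bf_rat w.2.1 v.2.1).choose_spec
      have h3 := (F.bf_rat w.2.1 v'.2.1).choose_spec
      have h4 : (((F.bf_rat w.2.1 (v + v').2.1).choose : ℚ) : W.K) =
          (((F.bf_rat w.2.1 v.2.1).choose + (F.bf_rat w.2.1 v'.2.1).choose : ℚ) : W.K) := by
        rw [Rat.cast_add, ← h1, ← h2, ← h3, Submodule.coe_add, map_add]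
      exact_mod_cast h4)
    (fun q w v => by
      have h1 := (F.bf_rat w.2.1 (q • v).2.1).choose_spec
      have h2 := (F.bf_rat w.2.1 v.2.1).choose_spec
      have h4 : (((F.bf_rat w.2.1 (q • v).2.1).choose : ℚ) : W.K) =
          ((q * (F.bf_rat w.2.1 v.2.1).choose : ℚ) : W.K) := by
        rw [Rat.cast_mul, ← h1, ← h2, Submodule.coe_smul, rat_smul, map_smul, smul_eq_mul]
      exact_mod_cast h4)

lemma BA_cast (F : Fr W X D f) {m : ℤ} {g : Module.End W.K (W.H X)} (v w : AWs W X m g) :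
    ((BA F m g v w : ℚ) : W.K) = bf W X D f (v : W.H X) (w : W.H X) :=
  (F.bf_rat v.2.1 w.2.1).choose_spec.symm

lemma BA_eq_zero (F : Fr W X D f) {m : ℤ} {g : Module.End W.K (W.H X)} {v w : AWs W X m g} :
    BA F m g v w = 0 ↔ bf W X D f (v : W.H X) (w : W.H X) = 0 := by
  rw [← BA_cast F]
  exact Rat.cast_eq_zero.symm

lemma par_AS {v : W.H X} (hv : AS W X v) : par (W.isInternal X) v = v := by
  refine AS.ind (p := fun v => par (W.isInternal X) v = v) ?_ ?_ hv
  · intro j x hx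
    rw [par, scal_apply _ _ (alg_gr hx)]
    simp
  · intro a b ha hb; rw [map_add, ha, hb]

lemma bf_symm (S : Sy W X D f) {v w : W.H X} (hw : AS W X w) :
    bf W X D f v w = bf W X D f w v := by
  rw [S v w, par_AS hw]

lemma BA_symm (F : Fr W X D f) (S : Sy W X D f) {m : ℤ} {g : Module.End W.K (W.H X)}
    (v w : AWs W X m g) : BA F m g v w = BA F m g w v := by
  have h : ((BA F m g v w : ℚ) : W.K) = ((BA F m g w v : ℚ) : W.K) := by
    rw [BA_cast, BA_cast]
    exact bf_symm S w.2.1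
  exact_mod_cast h

lemma card_le_rank (F : Fr W X D f) {m : ℤ} {g : Module.End W.K (W.H X)} {ι : Type*} [Fintype ι]
    (x : ι → AWs W X m g) (h1 : ∀ i, BA F m g (x i) (x i) ≠ 0)
    (h2 : ∀ i j, i ≠ j → BA F m g (x i) (x j) = 0) :
    Fintype.card ι ≤ Module.finrank W.K (LinearMap.range g) := by
  classical
  have hli : LinearIndependent W.K (fun i => ((x i : W.H X))) := by
    rw [Fintype.linearIndependent_iff]
    intro c hc i
    have h3 := congrArg (fun a => bf W X D f a (x i : W.H X)) hc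
    simp only [map_sum, LinearMap.sum_apply, map_smul, LinearMap.smul_apply, smul_eq_mul,
      map_zero, LinearMap.zero_apply] at h3
    rw [Finset.sum_eq_single i] at h3
    · rcases mul_eq_zero.1 h3 with h | h
      · exact h
      · exact absurd ((BA_eq_zero F).2 h) (h1 i)
    · intro j _ hj
      rw [(BA_eq_zero F).1 (h2 j i hj), mul_zero]
    · intro h; exact absurd (Finset.mem_univ _) h
  have hli2 : LinearIndependent W.K
      (fun i => (⟨(x i : W.H X), ⟨x i, (x i).2.2.2⟩⟩ : LinearMap.range g)) := by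
    apply LinearIndependent.of_comp (LinearMap.range g).subtype
    exact hli
  exact hli2.fintype_card_le_finrank

lemma exists_om (F : Fr W X D f) (S : Sy W X D f) (m : ℤ) (g : Module.End W.K (W.H X)) :
    ∃ n, ∃ x : Fin n → AWs W X m g, OM (BA F m g) x := by
  apply exists_OM (BA_symm F S) (N := Module.finrank W.K (LinearMap.range g))
  intro n x h1 h2
  have := card_le_rank F x h1 h2
  rwa [Fintype.card_fin] at this

/-- The signature of the form on the algebraic classes of weight `m` fixed by `g`. -/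
noncomputable def sgn (F : Fr W X D f) (m : ℤ) (g : Module.End W.K (W.H X)) : ℤ :=
  (posIdx (fun x y => BA F m g x y) : ℤ) - posIdx (fun x y => -BA F m g x y)

lemma sgn_eq (F : Fr W X D f) (S : Sy W X D f) {m : ℤ} {g : Module.End W.K (W.H X)}
    {ι : Type*} [Fintype ι] {x : ι → AWs W X m g} (h : OM (BA F m g) x) :
    sgn F m g = ∑ i, ((SignType.sign (BA F m g (x i) (x i)) : SignType) : ℤ) :=
  h.signature_eq (BA_symm F S)

lemma abs_sign_le (q : ℚ) : |((SignType.sign q : SignType) : ℤ)| ≤ 1 := by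
  rcases lt_trichotomy q 0 with h | h | h
  · rw [sign_neg h]; simp
  · rw [h, sign_zero]; simp
  · rw [sign_pos h]; simp

lemma abs_sgn_le (F : Fr W X D f) (S : Sy W X D f) (m : ℤ) (g : Module.End W.K (W.H X)) :
    |sgn F m g| ≤ Module.finrank W.K (LinearMap.range g) := by
  obtain ⟨n, x, hx⟩ := exists_om F S m g
  rw [sgn_eq F S hx]
  have h1 := card_le_rank F x hx.ne hx.orth
  rw [Fintype.card_fin] at h1
  calc |∑ i, ((SignType.sign (BA F m g (x i) (x i)) : SignType) : ℤ)|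
      ≤ ∑ i : Fin n, |((SignType.sign (BA F m g (x i) (x i)) : SignType) : ℤ)| :=
        Finset.abs_sum_le_sum_abs _ _
    _ ≤ ∑ _i : Fin n, (1 : ℤ) := Finset.sum_le_sum fun i _ => abs_sign_le _
    _ = n := by simp
    _ ≤ _ := by exact_mod_cast h1

/-- Algebraic operators which are adjoint to each other and commute with the weight. -/
structure OpP (W : WeilCohomology.{u, v} ops) (X : 𝒱.Obj) (D : X.Cycles)
    (f : Module.End W.K (W.H X)) (t t' : Module.End W.K (W.H X)) : Prop where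
  a : AOp W X X t
  a' : AOp W X X t'
  adj : ∀ x y, bf W X D f (t x) y = bf W X D f x (t' y)
  adj' : ∀ x y, bf W X D f (t' x) y = bf W X D f x (t y)
  w : ∀ x, wt (W.isInternal X) X.dim (t x) = t (wt (W.isInternal X) X.dim x)
  w' : ∀ x, wt (W.isInternal X) X.dim (t' x) = t' (wt (W.isInternal X) X.dim x)

lemma OpP.mem {t t' g g' : Module.End W.K (W.H X)} (h : OpP W X D f t t') {m : ℤ}
    {v : W.H X} (hv : v ∈ AWs W X m g) (hg : ∀ x, g' (t x) = t x) : t v ∈ AWs W X m g' :=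
  ⟨h.a.apply hv.1, by rw [h.w, hv.2.1, map_smul], hg v⟩

lemma OpP.mem' {t t' g g' : Module.End W.K (W.H X)} (h : OpP W X D f t t') {m : ℤ}
    {v : W.H X} (hv : v ∈ AWs W X m g) (hg : ∀ x, g' (t' x) = t' x) : t' v ∈ AWs W X m g' :=
  ⟨h.a'.apply hv.1, by rw [h.w', hv.2.1, map_smul], hg v⟩

/-- **The signature is additive.** -/
lemma sgn_add (F : Fr W X D f) (S : Sy W X D f) (m : ℤ) {g₁ g₂ : Module.End W.K (W.H X)}
    (h₁ : OpP W X D f g₁ g₁) (h₂ : OpP W X D f g₂ g₂) (e₁ : ∀ x, g₁ (g₁ x) = g₁ x)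
    (e₂ : ∀ x, g₂ (g₂ x) = g₂ x) (e₁₂ : ∀ x, g₁ (g₂ x) = 0) (e₂₁ : ∀ x, g₂ (g₁ x) = 0) :
    sgn F m (g₁ + g₂) = sgn F m g₁ + sgn F m g₂ := by
  obtain ⟨n₁, x₁, hx₁⟩ := exists_om F S m g₁
  obtain ⟨n₂, x₂, hx₂⟩ := exists_om F S m g₂
  have hc₁ : ∀ v : AWs W X m g₁, g₂ (v : W.H X) = 0 := fun v => by
    rw [← v.2.2.2, e₂₁]
  have hc₂ : ∀ v : AWs W X m g₂, g₁ (v : W.H X) = 0 := fun v => by
    rw [← v.2.2.2, e₁₂]
  let i₁ : AWs W X m g₁ → AWs W X m (g₁ + g₂) := fun v => ⟨v, v.2.1, v.2.2.1, by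
    rw [LinearMap.add_apply, v.2.2.2, hc₁, add_zero]⟩
  let i₂ : AWs W X m g₂ → AWs W X m (g₁ + g₂) := fun v => ⟨v, v.2.1, v.2.2.1, by
    rw [LinearMap.add_apply, v.2.2.2, hc₂, zero_add]⟩
  have hi₁ : ∀ v w, BA F m (g₁ + g₂) (i₁ v) (i₁ w) = BA F m g₁ v w := by
    intro v w
    have : ((BA F m (g₁ + g₂) (i₁ v) (i₁ w) : ℚ) : W.K) = ((BA F m g₁ v w : ℚ) : W.K) := by
      rw [BA_cast, BA_cast]
    exact_mod_cast this
  have hi₂ : ∀ v w, BA F m (g₁ + g₂) (i₂ v) (i₂ w) = BA F m g₂ v w := by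
    intro v w
    have : ((BA F m (g₁ + g₂) (i₂ v) (i₂ w) : ℚ) : W.K) = ((BA F m g₂ v w : ℚ) : W.K) := by
      rw [BA_cast, BA_cast]
    exact_mod_cast this
  have hcross : ∀ v w, BA F m (g₁ + g₂) (i₁ v) (i₂ w) = 0 := by
    intro v w
    rw [BA_eq_zero]
    change bf W X D f (v : W.H X) (w : W.H X) = 0
    rw [← v.2.2.2, h₁.adj, hc₂, map_zero]
  have hcross' : ∀ v w, BA F m (g₁ + g₂) (i₂ w) (i₁ v) = 0 := by
    intro v w
    rw [BA_symm F S, hcross]
  have hom : OM (BA F m (g₁ + g₂)) (Sum.elim (fun i => i₁ (x₁ i)) (fun i => i₂ (x₂ i))) := by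
    refine ⟨?_, ?_, ?_⟩
    · rintro (i | i)
      · rw [Sum.elim_inl, hi₁]; exact hx₁.ne i
      · rw [Sum.elim_inr, hi₂]; exact hx₂.ne i
    · rintro (i | i) (j | j) hij
      · rw [Sum.elim_inl, Sum.elim_inl, hi₁]
        exact hx₁.orth i j fun h => hij (by rw [h])
      · exact hcross _ _
      · exact hcross' _ _
      · rw [Sum.elim_inr, Sum.elim_inr, hi₂]
        exact hx₂.orth i j fun h => hij (by rw [h])
    · intro v hv
      have hv0 : (v : W.H X) = g₁ (v : W.H X) + g₂ (v : W.H X) := v.2.2.2.symm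
      let v₁ : AWs W X m g₁ := ⟨g₁ (v : W.H X), h₁.mem v.2 e₁⟩
      let v₂ : AWs W X m g₂ := ⟨g₂ (v : W.H X), h₂.mem v.2 e₂⟩
      have hv₁ : BA F m g₁ v₁ v₁ = 0 := by
        apply hx₁.max
        intro i
        rw [BA_eq_zero]
        change bf W X D f (g₁ (v : W.H X)) (x₁ i : W.H X) = 0
        rw [h₁.adj, (x₁ i).2.2.2]
        have h := hv (Sum.inl i)
        rw [BA_eq_zero] at h
        exact h
      have hv₂ : BA F m g₂ v₂ v₂ = 0 := by
        apply hx₂.max
        intro i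
        rw [BA_eq_zero]
        change bf W X D f (g₂ (v : W.H X)) (x₂ i : W.H X) = 0
        rw [h₂.adj, (x₂ i).2.2.2]
        have h := hv (Sum.inr i)
        rw [BA_eq_zero] at h
        exact h
      rw [BA_eq_zero] at hv₁ hv₂ ⊢
      change bf W X D f (g₁ (v : W.H X)) (g₁ (v : W.H X)) = 0 at hv₁
      change bf W X D f (g₂ (v : W.H X)) (g₂ (v : W.H X)) = 0 at hv₂
      rw [hv0, map_add (bf W X D f), LinearMap.add_apply, map_add, map_add, hv₁, hv₂, h₁.adj, e₁₂,
        h₂.adj, e₂₁, map_zero, add_zero, add_zero]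
  rw [sgn_eq F S hom, sgn_eq F S hx₁, sgn_eq F S hx₂, Fintype.sum_sum_type]
  congr 1

/-- **Anti-isometric projectors have opposite signatures.** -/
lemma sgn_anti (F : Fr W X D f) (S : Sy W X D f) (m : ℤ) {g₁ g₂ t t' : Module.End W.K (W.H X)}
    (ht : OpP W X D f t t') {c : ℚ} (hc : c < 0) (h1 : ∀ x, t' (t x) = (c : W.K) • g₁ x)
    (h2 : ∀ x, t (t' x) = (c : W.K) • g₂ x) (e : ∀ x, g₂ (t x) = t x)
    (e' : ∀ x, g₁ (t' x) = t' x) : sgn F m g₂ = -sgn F m g₁ := by
  obtain ⟨n, x, hx⟩ := exists_om F S m g₁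
  have hk : ∀ v w : AWs W X m g₁, bf W X D f (t (v : W.H X)) (t (w : W.H X)) =
      (c : W.K) * bf W X D f (v : W.H X) (w : W.H X) := by
    intro v w
    rw [ht.adj, h1, w.2.2.2, map_smul, smul_eq_mul]
  let y : Fin n → AWs W X m g₂ := fun i => ⟨t (x i : W.H X), ht.mem (x i).2 e⟩
  have hy : ∀ i j, BA F m g₂ (y i) (y j) = c * BA F m g₁ (x i) (x j) := by
    intro i j
    have : ((BA F m g₂ (y i) (y j) : ℚ) : W.K) = ((c * BA F m g₁ (x i) (x j) : ℚ) : W.K) := by
      rw [BA_cast, Rat.cast_mul, BA_cast]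
      exact hk _ _
    exact_mod_cast this
  have hom : OM (BA F m g₂) y := by
    refine ⟨fun i => ?_, fun i j hij => ?_, fun v hv => ?_⟩
    · rw [hy]; exact mul_ne_zero hc.ne (hx.ne i)
    · rw [hy, hx.orth i j hij, mul_zero]
    · let v' : AWs W X m g₁ := ⟨t' (v : W.H X), ht.mem' v.2 e'⟩
      have hv' : BA F m g₁ v' v' = 0 := by
        apply hx.max
        intro i
        rw [BA_eq_zero]
        change bf W X D f (t' (v : W.H X)) (x i : W.H X) = 0
        rw [ht.adj']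
        have h := hv i
        rw [BA_eq_zero] at h
        exact h
      rw [BA_eq_zero] at hv' ⊢
      change bf W X D f (t' (v : W.H X)) (t' (v : W.H X)) = 0 at hv'
      rw [ht.adj', h2, v.2.2.2, map_smul, smul_eq_mul] at hv'
      rcases mul_eq_zero.1 hv' with h | h
      · exact absurd (Rat.cast_eq_zero.1 h) hc.ne
      · exact h
  rw [sgn_eq F S hom, sgn_eq F S hx, ← Finset.sum_neg_distrib]
  apply Finset.sum_congr rfl
  intro i _
  rw [hy, sign_mul, sign_neg hc]
  simp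

end Pool.Agent.H44T.SL
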