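import Pool.Agent.H44T.SL.Sgn

/-!
# Signatures on the products of a variety with the powers of a variety
-/

open CategoryTheory AlgebraicGeometry Finset

universe u v

namespace Pool.Agent.H44T.SL

open Pool.Agent.H914 Pool.Agent.H914.VarClass Pool.Agent.H914.VarClass.Obj
  Pool.Agent.H914.WeilCohomology Pool.Agent.H281R3.HT Pool.Agent.W552 Pool.Agent.W539.Ker

variable {k : Type u} [Field k] {𝒱 : VarClass k} {ops : CycleOps 𝒱}
  {W : WeilCohomology.{u, v} ops} {X Y Z : 𝒱.Obj} {D : X.Cycles} {f : Module.End W.K (W.H X)}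

section One

/-- The operator `x ↦ tr (x c) a` is algebraic. -/
lemma aop_rank {a c : W.H X} (ha : AS W X a) (hc : AS W X c) :
    AOp W X X (((bil W X).flip c).smulRight a) := by
  refine AS.ind (p := fun a => AOp W X X (((bil W X).flip c).smulRight a)) ?_ ?_ ha
  · intro i a ha
    refine AS.ind (p := fun c => AOp W X X (((bil W X).flip c).smulRight a)) ?_ ?_ hc
    · intro j c hc
      refine ⟨W.map (swap X X) (W.map (fst X X) a * W.map (snd X X) c),
        (((AS.of ha).map _).mul ((AS.of hc).map _)).map _, ?_⟩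
      rw [corr_swap_tmul (alg_gr ha) (alg_gr hc)]
      apply LinearMap.ext
      intro x
      rw [LinearMap.smulRight_apply, LinearMap.smulRight_apply, LinearMap.flip_apply,
        LinearMap.comp_apply, LinearMap.mulLeft_apply, bil_apply, W.even_comm (alg_gr hc)]
    · intro c c' hc hc'
      have : ((bil W X).flip (c + c')).smulRight a = ((bil W X).flip c).smulRight a +
          ((bil W X).flip c').smulRight a := by
        apply LinearMap.ext
        intro x
        simp [add_smul]
      rw [this]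
      exact hc.add hc'
  · intro a a' ha ha'
    have : ((bil W X).flip c).smulRight (a + a') = ((bil W X).flip c).smulRight a +
        ((bil W X).flip c).smulRight a' := by
      apply LinearMap.ext
      intro x
      simp
    rw [this]
    exact ha.add ha'

/-- The operator `x ↦ ⟨x, c⟩ a`. -/
noncomputable def R1 (W : WeilCohomology.{u, v} ops) (X : 𝒱.Obj) (D : X.Cycles)
    (f : Module.End W.K (W.H X)) (a c : W.H X) : Module.End W.K (W.H X) :=
  ((bf W X D f).flip c).smulRight a

lemma R1_apply (a c x : W.H X) : R1 W X D f a c x = bf W X D f x c • a := rfl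

lemma R1_aop (F : Fr W X D f) {a c : W.H X} (ha : AS W X a) (hc : AS W X c) :
    AOp W X X (R1 W X D f a c) := by
  have h := aop_rank ha (F.st_AS hc)
  exact h

/-- The weight operator is self-adjoint. -/
lemma wt_self (F : Fr W X D f) (a b : W.H X) :
    bf W X D f (wt (W.isInternal X) X.dim a) b = bf W X D f a (wt (W.isInternal X) X.dim b) := by
  refine gr_induction (W.isInternal X) (p := fun a => bf W X D f (wt (W.isInternal X) X.dim a) b =
    bf W X D f a (wt (W.isInternal X) X.dim b)) ?_ ?_ a
  swap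
  · intro a a' ha ha'
    rw [map_add, map_add, LinearMap.add_apply, ha, ha', map_add, LinearMap.add_apply]
  intro i a ha
  refine gr_induction (W.isInternal X) (p := fun b => bf W X D f (wt (W.isInternal X) X.dim a) b =
    bf W X D f a (wt (W.isInternal X) X.dim b)) ?_ ?_ b
  swap
  · intro b b' hb hb'
    rw [map_add, hb, hb', map_add, map_add]
  intro j b hb
  rw [Fr.wt_gr ha, Fr.wt_gr hb, map_smul, LinearMap.smul_apply, map_smul]
  by_cases hij : i = j
  · rw [hij]
  · rw [F.bf_deg ha hb hij, smul_zero, smul_zero]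

lemma R1_opP (F : Fr W X D f) (S : Sy W X D f) {a c : W.H X} {w : W.K} (ha : AS W X a)
    (hc : AS W X c) (wa : wt (W.isInternal X) X.dim a = w • a)
    (wc : wt (W.isInternal X) X.dim c = w • c) :
    OpP W X D f (R1 W X D f a c) (R1 W X D f c a) where
  a := R1_aop F ha hc
  a' := R1_aop F hc ha
  adj x y := by
    rw [R1_apply, R1_apply, map_smul, LinearMap.smul_apply, map_smul, smul_eq_mul, smul_eq_mul,
      bf_symm S (v := y) ha, mul_comm]
  adj' x y := by
    rw [R1_apply, R1_apply, map_smul, LinearMap.smul_apply, map_smul, smul_eq_mul, smul_eq_mul,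
      bf_symm S (v := y) hc, mul_comm]
  w x := by
    rw [R1_apply, R1_apply, map_smul, wt_self F, wa, wc, map_smul, smul_eq_mul, smul_smul,
      mul_comm]
  w' x := by
    rw [R1_apply, R1_apply, map_smul, wt_self F, wa, wc, map_smul, smul_eq_mul, smul_smul,
      mul_comm]

lemma OpP.one : OpP W X D f 1 1 :=
  ⟨AOp.one, AOp.one, fun _ _ => rfl, fun _ _ => rfl, fun _ => rfl, fun _ => rfl⟩

lemma OpP.add {t t' s s' : Module.End W.K (W.H X)} (h : OpP W X D f t t')
    (h' : OpP W X D f s s') : OpP W X D f (t + s) (t' + s') where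
  a := h.a.add h'.a
  a' := h.a'.add h'.a'
  adj x y := by
    rw [LinearMap.add_apply, map_add, LinearMap.add_apply, h.adj, h'.adj, LinearMap.add_apply,
      map_add]
  adj' x y := by
    rw [LinearMap.add_apply, map_add, LinearMap.add_apply, h.adj', h'.adj', LinearMap.add_apply,
      map_add]
  w x := by rw [LinearMap.add_apply, map_add, h.w, h'.w, LinearMap.add_apply]
  w' x := by rw [LinearMap.add_apply, map_add, h.w', h'.w', LinearMap.add_apply]

lemma OpP.smul (q : ℚ) {t t' : Module.End W.K (W.H X)} (h : OpP W X D f t t') :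
    OpP W X D f ((q : W.K) • t) ((q : W.K) • t') where
  a := h.a.smul q
  a' := h.a'.smul q
  adj x y := by
    rw [LinearMap.smul_apply, map_smul, LinearMap.smul_apply, h.adj, LinearMap.smul_apply,
      map_smul]
  adj' x y := by
    rw [LinearMap.smul_apply, map_smul, LinearMap.smul_apply, h.adj', LinearMap.smul_apply,
      map_smul]
  w x := by rw [LinearMap.smul_apply, map_smul, h.w, LinearMap.smul_apply]
  w' x := by rw [LinearMap.smul_apply, map_smul, h.w', LinearMap.smul_apply]

/-- External products. -/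
lemma OpP.ext (F : Fr W X D f) {E : Y.Cycles} {f' : Module.End W.K (W.H Y)} (G : Fr W Y E f')
    {t t' : Module.End W.K (W.H X)} {s s' : Module.End W.K (W.H Y)} (h : OpP W X D f t t')
    (h' : OpP W Y E f' s s') :
    OpP W (X.prod Y) (ops.pull (fst X Y) D + ops.pull (snd X Y) E) (extSum W f f')
      (extOp W t s) (extOp W t' s') := by
  have key : ∀ {t t' : Module.End W.K (W.H X)} {s s' : Module.End W.K (W.H Y)}
      (_ : ∀ x y, bf W X D f (t x) y = bf W X D f x (t' y))
      (_ : ∀ x y, bf W Y E f' (s x) y = bf W Y E f' x (s' y)) (x y : W.H (X.prod Y)),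
      bf W (X.prod Y) (ops.pull (fst X Y) D + ops.pull (snd X Y) E) (extSum W f f')
        (extOp W t s x) y =
      bf W (X.prod Y) (ops.pull (fst X Y) D + ops.pull (snd X Y) E) (extSum W f f') x
        (extOp W t' s' y) := by
    intro t t' s s' h1 h2 x y
    refine W.kunneth_induction (p := fun x => bf W (X.prod Y)
      (ops.pull (fst X Y) D + ops.pull (snd X Y) E) (extSum W f f')
        (extOp W t s x) y =
      bf W (X.prod Y) (ops.pull (fst X Y) D + ops.pull (snd X Y) E) (extSum W f f') x
        (extOp W t' s' y)) ?_ ?_ x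
    · intro a b ha hb
      rw [map_add, map_add, LinearMap.add_apply, ha, hb, map_add, LinearMap.add_apply]
    intro i j a _ b _
    refine W.kunneth_induction (p := fun y => bf W (X.prod Y)
      (ops.pull (fst X Y) D + ops.pull (snd X Y) E) (extSum W f f')
        (extOp W t s (W.map (fst X Y) a * W.map (snd X Y) b)) y =
      bf W (X.prod Y) (ops.pull (fst X Y) D + ops.pull (snd X Y) E) (extSum W f f')
        (W.map (fst X Y) a * W.map (snd X Y) b) (extOp W t' s' y)) ?_ ?_ y
    · intro c d hc hd
      rw [map_add, hc, hd, map_add, map_add]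
    intro i' j' a' _ b' _
    rw [extOp_tmul, extOp_tmul]
    have e1 := F.bf_ext G (t a) a' (s b) b'
    have e2 := F.bf_ext G a (t' a') b (s' b')
    rw [H281R3.HT.ext, H281R3.HT.ext] at e1 e2
    rw [e1, e2, h1, h2]
  have keyw : ∀ {t : Module.End W.K (W.H X)} {s : Module.End W.K (W.H Y)}
      (_ : ∀ x, wt (W.isInternal X) X.dim (t x) = t (wt (W.isInternal X) X.dim x))
      (_ : ∀ x, wt (W.isInternal Y) Y.dim (s x) = s (wt (W.isInternal Y) Y.dim x))
      (x : W.H (X.prod Y)), wt (W.isInternal (X.prod Y)) (X.prod Y).dim (extOp W t s x) =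
        extOp W t s (wt (W.isInternal (X.prod Y)) (X.prod Y).dim x) := by
    intro t s h1 h2 x
    rw [wt_prod]
    refine W.kunneth_induction (p := fun x => extSum W (wt (W.isInternal X) X.dim)
      (wt (W.isInternal Y) Y.dim) (extOp W t s x) = extOp W t s (extSum W
        (wt (W.isInternal X) X.dim) (wt (W.isInternal Y) Y.dim) x)) ?_ ?_ x
    · intro a b ha hb
      rw [map_add, map_add, ha, hb, map_add, map_add]
    intro i j a _ b _
    rw [extOp_tmul, extSum_tmul, extSum_tmul, map_add, extOp_tmul, extOp_tmul, h1, h2]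
  exact ⟨h.a.ext h'.a, h.a'.ext h'.a', key h.adj h'.adj, key h.adj' h'.adj', keyw h.w h'.w,
    keyw h.w' h'.w'⟩

end One

section Tower

/-- The product of `Z` with the power `P ^ n`, with the sum divisor. -/
noncomputable def tw (ops : CycleOps 𝒱) (P : Polarized 𝒱) : ℕ → Polarized 𝒱 → Polarized 𝒱
  | 0, Z => Z
  | n + 1, Z => tw ops P n (Z.prod ops P)

variable (P : Polarized 𝒱) (fP : Module.End W.K (W.H P.X))

/-- The lowering operator. -/
noncomputable def twF : ∀ (n : ℕ) (Z : Polarized 𝒱), Module.End W.K (W.H Z.X) →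
    Module.End W.K (W.H (tw ops P n Z).X)
  | 0, _, f => f
  | n + 1, Z, f => twF n (Z.prod ops P) (extSum W f fP : Module.End W.K (W.H (Z.X.prod P.X)))

/-- The operators on `Z × P ^ n` given by the operators on `Z`. -/
noncomputable def lft (W : WeilCohomology.{u, v} ops) : ∀ (n : ℕ) (Z : Polarized 𝒱),
    Module.End W.K (W.H Z.X) →+* Module.End W.K (W.H (tw ops P n Z).X)
  | 0, Z => RingHom.id _
  | n + 1, Z => (lft W n (Z.prod ops P)).comp (extL W Z.X P.X)

variable {P fP}

lemma tw_fr (G : Fr W P.X P.D fP) : ∀ (n : ℕ) {Z : Polarized 𝒱} {f : Module.End W.K (W.H Z.X)},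
    Fr W Z.X Z.D f → Fr W (tw ops P n Z).X (tw ops P n Z).D (twF P fP n Z f)
  | 0, _, _, F => F
  | n + 1, Z, _, F => tw_fr G n (Z := Z.prod ops P) (F.prod G)

lemma tw_sy (G : Fr W P.X P.D fP) (GS : Sy W P.X P.D fP) : ∀ (n : ℕ) {Z : Polarized 𝒱}
    {f : Module.End W.K (W.H Z.X)}, Fr W Z.X Z.D f → Sy W Z.X Z.D f →
    Sy W (tw ops P n Z).X (tw ops P n Z).D (twF P fP n Z f)
  | 0, _, _, _, S => S
  | n + 1, Z, _, F, S => tw_sy G GS n (Z := Z.prod ops P) (F.prod G) (Sy.prod F G S GS)

lemma lft_opP (G : Fr W P.X P.D fP) : ∀ (n : ℕ) {Z : Polarized 𝒱}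
    {f : Module.End W.K (W.H Z.X)} (_ : Fr W Z.X Z.D f) {t t' : Module.End W.K (W.H Z.X)},
    OpP W Z.X Z.D f t t' → OpP W (tw ops P n Z).X (tw ops P n Z).D (twF P fP n Z f)
      (lft P W n Z t) (lft P W n Z t')
  | 0, _, _, _, _, _, h => h
  | n + 1, Z, _, F, _, _, h => lft_opP G n (Z := Z.prod ops P) (F.prod G) (h.ext F G OpP.one)

lemma lft_smul (c : W.K) : ∀ (n : ℕ) {Z : Polarized 𝒱} (t : Module.End W.K (W.H Z.X)),
    lft P W n Z (c • t) = c • lft P W n Z t
  | 0, _, _ => rfl
  | n + 1, Z, t => by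
    change lft P W n (Z.prod ops P) (extOp W (c • t) 1) = c • lft P W n (Z.prod ops P)
      (extOp W t 1)
    rw [extOp_smul_left]
    exact lft_smul c n (Z := Z.prod ops P) _

end Tower

end Pool.Agent.H44T.SL
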